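import Pool.Agent.L5helper84.BL.Ident

/-!
The area identity for invariant functions, and the vanishing criterion.
-/

set_option autoImplicit false

namespace Pool.Agent.L5helper84.BL

open Complex Set MeasureTheory Filter Topology Pool.Agent.W780.PG Pool.Agent.W780.BB
  Pool.Agent.TH103.BL Pool.Agent.N440.LB

open scoped Real ComplexConjugate

variable {n : ℕ}

/-- the increments of `Psi` along a side -/
theorem psi_edge {p : Fin (n + 3) → ℂ} {f : ℂ × ℝ → ℝ} {C : ℝ} {F : ℝ → ℝ → ℝ}
    (hF : Chord p f C F) (k : ℕ) (i : Fin (n + 3)) :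
    exp (-((k * tau p i : ℝ) : ℂ) * I) * (Psi F k (p (i + 1)) - Psi F k (p i)) =
      -((‖p (i + 1) - p i‖ * mom p F k i : ℝ) : ℂ) * I :=
  (side_gen parts.gf parts.sy p i F C hF.meas hF.bdd hF.per (hF.refl i) k).2

/-- the area identity for bounded invariant functions -/
theorem area_id {p : Fin (n + 3) → ℂ} (hp : IsConvexPolygon p) {f : ℂ × ℝ → ℝ}
    (hfm : Measurable f) (hfb : ∃ C : ℝ, ∀ x, |f x| ≤ C)
    (hper : ∀ z θ, f (z, θ + 2 * π) = f (z, θ)) {C : ℝ} {F : ℝ → ℝ → ℝ} (hF : Chord p f C F)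
    {k : ℕ} (hk : 1 ≤ k) :
    (En p f (k + 1) - En p f (k - 1)) / 2 =
      ∑ i, (conj (Psi F k (p (i + 1))) * Psi F k (p i)).im := by
  obtain ⟨C₀, hC₀⟩ := hfb
  exact area_identity parts.i1 parts.div parts.gf parts.sy parts.fa hp (reg_bounded parts.hull hp)
    (parts.basic n p hp).2.1.measurableSet (vert_ne parts.basic hp) hfm hper hC₀ hF hk

/-- a function vanishes if the energies with equal parity are equal -/
theorem zero_of_en {p : Fin (n + 3) → ℂ} (hp : IsConvexPolygon p) {f : ℂ × ℝ → ℝ}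
    (hfm : Measurable f) (hfb : ∃ C : ℝ, ∀ x, |f x| ≤ C)
    (hper : ∀ z θ, f (z, θ + 2 * π) = f (z, θ))
    (h : ∀ k : ℕ, 1 ≤ k → En p f (k + 1) = En p f (k - 1)) :
    ∀ᵐ x : ℂ × ℝ, x.1 ∈ region p → f x = 0 := by
  obtain ⟨C₀, hC₀⟩ := hfb
  have hreg : region p = reg p := (parts.hull n p hp).2
  have hopen : IsOpen (reg p) := (parts.basic n p hp).2.1
  have h := parts.fb (reg p) hopen.measurableSet (reg_bounded parts.hull hp) (fun z θ => f (z, θ))
    C₀ hfm (fun z θ => hC₀ (z, θ)) hper h
  have hset : MeasurableSet {x : ℂ × ℝ | x.1 ∈ region p → f x = 0} := by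
    have : {x : ℂ × ℝ | x.1 ∈ region p → f x = 0} =
        (Prod.fst ⁻¹' (region p))ᶜ ∪ {x | f x = 0} := by
      ext x
      simp only [mem_ofPred_eq, mem_union, mem_compl_iff, mem_preimage]
      tauto
    rw [this]
    refine (MeasurableSet.compl (measurable_fst ?_)).union (measurableSet_eq_fun hfm measurable_const)
    rw [hreg]
    exact hopen.measurableSet
  rw [Measure.volume_eq_prod, Measure.ae_prod_iff_ae_ae hset]
  rw [ae_restrict_iff' hopen.measurableSet] at h
  filter_upwards [h] with z hz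
  by_cases hzr : z ∈ reg p
  · filter_upwards [hz hzr] with θ hθ _ using hθ
  · refine ae_of_all _ fun θ hθ => ?_
    rw [hreg] at hθ
    exact absurd hθ hzr

/-- sums of differences around the polygon -/
theorem sum_cyc (x : Fin (n + 3) → ℂ) : ∑ i, (x (i + 1) - x i) = 0 := by
  have h : ∑ i, x (i + 1) = ∑ i, x i := Equiv.sum_comp (Equiv.addRight (1 : Fin (n + 3))) x
  rw [Finset.sum_sub_distrib, h, sub_self]

theorem fin_ind {P : Fin (n + 3) → Prop} (h0 : P 0) (hs : ∀ i, P i → P (i + 1)) : ∀ i, P i := by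
  have : ∀ (m : ℕ) (hm : m < n + 3), P ⟨m, hm⟩ := by
    intro m
    induction m with
    | zero => intro hm; exact h0
    | succ m ih =>
      intro hm
      have h1 := hs _ (ih (by omega))
      have h2 : (⟨m, by omega⟩ : Fin (n + 3)) + 1 = ⟨m + 1, hm⟩ := by
        ext
        rw [Fin.val_add]
        exact Nat.mod_eq_of_lt hm
      rwa [h2] at h1
  exact fun i => this i.val i.isLt

/-- a polygon all of whose sides are parallel has area zero -/
theorem area_par (x : Fin (n + 3) → ℂ) (w : ℂ)
    (h : ∀ i, (conj w * (x (i + 1) - x i)).im = 0) (hw : w ≠ 0) :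
    ∑ i, (conj (x (i + 1)) * x i).im = 0 := by
  have h1 : ∀ i, (conj w * x i).im = (conj w * x 0).im := by
    refine fin_ind rfl fun i hi => ?_
    have := h i
    rw [mul_sub, sub_im] at this
    linarith
  have h2 : ∀ i, (conj (conj w * x (i + 1)) * (conj w * x i)).im =
      normSq w * (conj (x (i + 1)) * x i).im := by
    intro i
    rw [map_mul, conj_conj, show w * conj (x (i + 1)) * (conj w * x i) =
      (w * conj w) * (conj (x (i + 1)) * x i) by ring, mul_conj, im_ofReal_mul]
  have h3 : normSq w * ∑ i, (conj (x (i + 1)) * x i).im = 0 := by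
    rw [Finset.mul_sum]
    simp only [← h2]
    have h4 : ∀ i, (conj (conj w * x (i + 1)) * (conj w * x i)).im =
        (conj w * x 0).im * ((conj w * (x (i + 1) - x i)).re) := by
      intro i
      rw [mul_im, conj_re, conj_im, h1 (i + 1), h1 i, mul_sub, sub_re]
      ring
    simp only [h4]
    rw [← Finset.mul_sum]
    have h5 : ∑ i, (conj w * (x (i + 1) - x i)).re = (conj w * ∑ i, (x (i + 1) - x i)).re := by
      rw [Finset.mul_sum, re_sum]
    rw [h5, sum_cyc]
    simp
  exact (mul_eq_zero.1 h3).resolve_left (normSq_pos.2 hw).ne'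

/-- a polygon all of whose sides but one are parallel has area zero -/
theorem area_par' (x : Fin (n + 3) → ℂ) (w : ℂ) (i₀ : Fin (n + 3))
    (h : ∀ i, i ≠ i₀ → (conj w * (x (i + 1) - x i)).im = 0) (hw : w ≠ 0) :
    ∑ i, (conj (x (i + 1)) * x i).im = 0 := by
  refine area_par x w (fun i => ?_) hw
  by_cases hi : i = i₀
  · subst hi
    have h1 : (conj w * ∑ j, (x (j + 1) - x j)).im = 0 := by rw [sum_cyc]; simp
    rw [Finset.mul_sum, im_sum, Finset.sum_eq_single i] at h1
    · exact h1
    · exact fun j _ hj => h j hj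
    · intro h; exact absurd (Finset.mem_univ _) h
  · exact h i hi

end Pool.Agent.L5helper84.BL
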