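import Pool.Agent.L5helper84.BL.Ener

/-!
The correlation of invariant functions with functions of the position.
-/

set_option autoImplicit false

namespace Pool.Agent.L5helper84.BL

open Complex Set MeasureTheory Filter Topology Pool.Agent.W780.PG Pool.Agent.W780.BB
  Pool.Agent.TH103.BL Pool.Agent.N440.LB Pool.Agent.N370.LB

open scoped Real ComplexConjugate

variable {n : ℕ}

/-- the mean of a function over the phase space -/
noncomputable def mean (p : Fin (n + 3) → ℂ) (f : ℂ × ℝ → ℝ) : ℝ :=
  (∫ x in phase p, f x) / volume.real (phase p)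

/-- the covariance of two functions on the phase space -/
noncomputable def cov (p : Fin (n + 3) → ℂ) (f g : ℂ × ℝ → ℝ) : ℝ :=
  mean p (fun x => f x * g x) - mean p f * mean p g

theorem cs {α : Type} [MeasurableSpace α] {μ : Measure α} {u v : α → ℝ} (hu : MemLp u 2 μ)
    (hv : MemLp v 2 μ) : (∫ x, u x * v x ∂μ) ^ 2 ≤ (∫ x, u x ^ 2 ∂μ) * ∫ x, v x ^ 2 ∂μ := by
  have iu : Integrable (fun x => u x ^ 2) μ := hu.integrable_sq
  have iv : Integrable (fun x => v x ^ 2) μ := hv.integrable_sq
  have iuv : Integrable (fun x => u x * v x) μ := hu.integrable_mul hv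
  have h : ∀ t : ℝ, 0 ≤ (∫ x, v x ^ 2 ∂μ) * (t * t) + (2 * ∫ x, u x * v x ∂μ) * t +
      ∫ x, u x ^ 2 ∂μ := by
    intro t
    have h1 : 0 ≤ ∫ x, (u x + t * v x) ^ 2 ∂μ := integral_nonneg fun x => sq_nonneg _
    have h2 : ∀ x, (u x + t * v x) ^ 2 = (t * t) * v x ^ 2 + (2 * t) * (u x * v x) + u x ^ 2 := by
      intro x; ring
    simp only [h2] at h1
    have q1 := integral_add (μ := μ) (f := fun x => (t * t) * v x ^ 2 + (2 * t) * (u x * v x))
      (g := fun x => u x ^ 2) ((iv.const_mul _).add (iuv.const_mul _)) iu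
    have q2 := integral_add (μ := μ) (f := fun x => (t * t) * v x ^ 2)
      (g := fun x => (2 * t) * (u x * v x)) (iv.const_mul _) (iuv.const_mul _)
    rw [q1, q2, integral_const_mul, integral_const_mul] at h1
    linarith
  have h3 := discrim_le_zero h
  unfold discrim at h3
  nlinarith

section

variable {p : Fin (n + 3) → ℂ} (hp : IsConvexPolygon p)
include hp

theorem reg_eq : region p = reg p := (parts.hull n p hp).2

theorem reg_meas : MeasurableSet (region p) := by
  rw [reg_eq hp]; exact (parts.basic n p hp).2.1.measurableSet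

theorem reg_fin : volume (region p) < ⊤ := by
  rw [reg_eq hp]; exact reg_bounded parts.hull hp

theorem phase_meas : MeasurableSet (phase p) := (reg_meas hp).prod measurableSet_Ico

theorem phase_vol : volume (phase p) = volume (region p) * ENNReal.ofReal (2 * π) := by
  unfold phase
  rw [Measure.volume_eq_prod, Measure.prod_prod, Real.volume_Ico, sub_zero]

theorem phase_fin : volume (phase p) < ⊤ := by
  rw [phase_vol hp]
  exact ENNReal.mul_lt_top (reg_fin hp) ENNReal.ofReal_lt_top

theorem phase_pos : 0 < volume.real (phase p) := by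
  unfold Measure.real
  refine ENNReal.toReal_pos ?_ (phase_fin hp).ne
  rw [phase_vol hp]
  refine mul_ne_zero ?_ ?_
  · rw [reg_eq hp]
    have h := parts.basic n p hp
    exact (h.2.1.measure_pos volume h.2.2.2.2.2.1).ne'
  · rw [ne_eq, ENNReal.ofReal_eq_zero, not_le]
    positivity

omit hp in
theorem phase_restrict (p : Fin (n + 3) → ℂ) : (volume : Measure (ℂ × ℝ)).restrict (phase p) =
    (volume.restrict (region p)).prod (volume.restrict (Ico 0 (2 * π))) := by
  unfold phase
  rw [Measure.volume_eq_prod, Measure.prod_restrict]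

omit hp in
theorem ico_int (a : ℝ → ℝ) : ∫ θ in Ico 0 (2 * π), a θ = ∫ θ in (0 : ℝ)..(2 * π), a θ := by
  rw [intervalIntegral.integral_of_le (by positivity), integral_Ico_eq_integral_Ioc]

theorem bdd_int {f : ℂ × ℝ → ℝ} (hf : Measurable f) {C : ℝ} (hb : ∀ x, |f x| ≤ C) :
    Integrable f (volume.restrict (phase p)) := by
  have : IsFiniteMeasure (volume.restrict (phase p)) := ⟨by simpa using phase_fin hp⟩
  exact Integrable.of_bound (C := C) hf.aestronglyMeasurable (ae_of_all _ fun x => hb x)

theorem phase_int {f : ℂ × ℝ → ℝ} (hf : Integrable f (volume.restrict (phase p))) :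
    ∫ x in phase p, f x = ∫ z in reg p, ∫ θ in (0 : ℝ)..(2 * π), f (z, θ) := by
  rw [phase_restrict] at hf ⊢
  rw [integral_prod _ hf, ← reg_eq hp]
  simp only [ico_int]

theorem phase_int' {f : ℂ × ℝ → ℝ} (hf : Integrable f (volume.restrict (phase p))) :
    ∫ x in phase p, f x = ∫ θ in (0 : ℝ)..(2 * π), ∫ z in reg p, f (z, θ) := by
  rw [phase_restrict] at hf ⊢
  rw [integral_prod_symm _ hf, ← reg_eq hp, ico_int]

/-- the energy of order 0 is at most a third of its trivial bound -/
theorem en_third {f : ℂ × ℝ → ℝ} (hfm : Measurable f) (hfb : ∃ C : ℝ, ∀ x, |f x| ≤ C)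
    (hI : IsInvariantFun p f) (h0 : ∫ x in phase p, f x = 0) :
    3 * En p f 0 ≤ 2 * π * ∫ x in phase p, f x ^ 2 := by
  obtain ⟨C, hC⟩ := hfb
  have hmean := phase_int' hp (bdd_int hp hfm hC)
  rw [h0] at hmean
  have h1 := en_ineq hp hfm ⟨C, hC⟩ hI hmean.symm
  have hsq : Integrable (fun x => f x ^ 2) (volume.restrict (phase p)) :=
    bdd_int hp (hfm.pow_const 2) (C := C ^ 2) fun x => by
      rw [abs_pow]; exact pow_le_pow_left₀ (abs_nonneg _) (hC x) 2
  rw [phase_int hp hsq]
  have hreg : MeasurableSet (reg p) := by rw [← reg_eq hp]; exact reg_meas hp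
  have hfin : volume (reg p) < ⊤ := by rw [← reg_eq hp]; exact reg_fin hp
  have hpi : (0:ℝ) ≤ 2 * π := by positivity
  have hint : ∀ m : ℕ, IntegrableOn (fun z => ‖∫ θ in (0 : ℝ)..(2 * π), (f (z, θ) : ℂ) * exp ((m * θ : ℝ) * I)‖ ^ 2)
      (reg p) := by
    intro m
    have hm : Measurable (fun x : ℂ × ℝ => (f (x.1, x.2) : ℂ) * exp ((m * x.2 : ℝ) * I)) := by
      have e1 : Measurable (fun x : ℂ × ℝ => (f x : ℂ)) := measurable_ofReal.comp hfm
      have e2 : Continuous (fun x : ℂ × ℝ => exp ((m * x.2 : ℝ) * I)) := by fun_prop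
      exact e1.mul e2.measurable
    have hm2 : Measurable (fun z : ℂ => ∫ θ in (0 : ℝ)..(2 * π), (f (z, θ) : ℂ) * exp ((m * θ : ℝ) * I)) := by
      simp only [intervalIntegral.integral_of_le hpi]
      exact (hm.stronglyMeasurable.integral_prod_right (ν := volume.restrict (Ioc 0 (2 * π)))).measurable
    refine Measure.integrableOn_of_bounded (M := (C * (2 * π)) ^ 2) hfin.ne
      ((hm2.norm.pow_const 2).aestronglyMeasurable) (ae_of_all _ fun z => ?_)
    rw [norm_pow, norm_norm]
    refine pow_le_pow_left₀ (norm_nonneg _) ?_ 2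
    have := intervalIntegral.norm_integral_le_of_norm_le_const (a := 0) (b := 2 * π) (C := C)
      (f := fun θ => (f (z, θ) : ℂ) * exp ((m * θ : ℝ) * I)) ?_
    · refine this.trans ?_
      rw [sub_zero, abs_of_nonneg hpi]
    · intro θ _
      rw [norm_mul, norm_exp_ofReal_mul_I, mul_one, norm_real, Real.norm_eq_abs]
      exact hC _
  have hrhs : IntegrableOn (fun z => ∫ θ in (0 : ℝ)..(2 * π), f (z, θ) ^ 2) (reg p) := by
    rw [phase_restrict] at hsq
    have := hsq.integral_prod_left
    rw [← reg_eq hp]
    refine this.congr (ae_of_all _ fun z => ?_)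
    exact ico_int _
  have h2 : En p f 0 + 2 * En p f 2 ≤ 2 * π * ∫ z in reg p, ∫ θ in (0 : ℝ)..(2 * π), f (z, θ) ^ 2 := by
    unfold En
    rw [← integral_const_mul, ← integral_const_mul, ← integral_add (hint 0) ((hint 2).const_mul 2)]
    refine setIntegral_mono_on ((hint 0).add ((hint 2).const_mul 2)) (hrhs.const_mul _) hreg
      fun z _ => ?_
    exact bessel (fun θ => f (z, θ)) C (hfm.comp measurable_prodMk_left) (fun θ => hC (z, θ))
  linarith

omit hp in
theorem en_zero (p : Fin (n + 3) → ℂ) (f : ℂ × ℝ → ℝ) :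
    En p f 0 = ∫ z in reg p, (∫ θ in (0 : ℝ)..(2 * π), f (z, θ)) ^ 2 := by
  unfold En
  refine integral_congr_ae (ae_of_all _ fun z => ?_)
  simp only [Nat.cast_zero, zero_mul, ofReal_zero, exp_zero, mul_one]
  rw [intervalIntegral.integral_ofReal, norm_real, Real.norm_eq_abs, sq_abs]

/-- products with functions of the position -/
theorem prod_third {f : ℂ × ℝ → ℝ} (hfm : Measurable f) (hfb : ∃ C : ℝ, ∀ x, |f x| ≤ C)
    (hI : IsInvariantFun p f) (h0 : ∫ x in phase p, f x = 0) {g : ℂ → ℝ}
    (hg : MemLp g 2 (volume.restrict (region p))) :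
    3 * (∫ x in phase p, f x * g x.1) ^ 2 ≤ (∫ x in phase p, f x ^ 2) * ∫ x in phase p, g x.1 ^ 2 := by
  obtain ⟨C, hC⟩ := hfb
  have h1 := en_third hp hfm ⟨C, hC⟩ hI h0
  have hfinr : IsFiniteMeasure (volume.restrict (region p)) := ⟨by simpa using reg_fin hp⟩
  have hfinp : IsFiniteMeasure (volume.restrict (phase p)) := ⟨by simpa using phase_fin hp⟩
  have hpi : (0:ℝ) ≤ 2 * π := by positivity
  set a : ℂ → ℝ := fun z => ∫ θ in (0 : ℝ)..(2 * π), f (z, θ) with ha
  have ham : Measurable a := by
    simp only [ha, intervalIntegral.integral_of_le hpi]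
    exact (hfm.stronglyMeasurable.integral_prod_right' (ν := volume.restrict (Ioc 0 (2 * π)))).measurable
  have hab : ∀ z, |a z| ≤ C * (2 * π) := by
    intro z
    have := intervalIntegral.norm_integral_le_of_norm_le_const (a := 0) (b := 2 * π) (C := C)
      (f := fun θ => f (z, θ)) (fun θ _ => hC _)
    rwa [sub_zero, abs_of_nonneg hpi] at this
  have haL : MemLp a 2 (volume.restrict (region p)) :=
    MemLp.of_bound ham.aestronglyMeasurable (C * (2 * π)) (ae_of_all _ hab)
  have hG : MemLp (fun x : ℂ × ℝ => g x.1) 2 (volume.restrict (phase p)) := by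
    rw [phase_restrict]
    exact hg.comp_fst _
  have hfL : MemLp f 2 (volume.restrict (phase p)) :=
    MemLp.of_bound hfm.aestronglyMeasurable C (ae_of_all _ hC)
  have e1 : ∫ x in phase p, f x * g x.1 = ∫ z in region p, a z * g z := by
    have hi : Integrable (fun x : ℂ × ℝ => f x * g x.1) (volume.restrict (phase p)) :=
      hfL.integrable_mul hG
    rw [phase_int hp hi, ← reg_eq hp]
    refine integral_congr_ae (ae_of_all _ fun z => ?_)
    simp only [ha]
    rw [intervalIntegral.integral_mul_const]
  have e2 : ∫ x in phase p, g x.1 ^ 2 = 2 * π * ∫ z in region p, g z ^ 2 := by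
    rw [phase_int hp hG.integrable_sq, ← reg_eq hp, ← integral_const_mul]
    refine integral_congr_ae (ae_of_all _ fun z => ?_)
    simp only
    rw [intervalIntegral.integral_const]
    simp
  have e3 : En p f 0 = ∫ z in region p, a z ^ 2 := by rw [en_zero, reg_eq hp]
  rw [e1, e2]
  have h2 := cs haL hg
  rw [← e3] at h2
  have hg0 : 0 ≤ ∫ z in region p, g z ^ 2 := integral_nonneg fun z => sq_nonneg _
  have h3 := mul_le_mul_of_nonneg_right h1 hg0
  nlinarith

theorem mean_sub_const {f : ℂ × ℝ → ℝ} (hf : Integrable f (volume.restrict (phase p))) :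
    ∫ x in phase p, (f x - mean p f) = 0 := by
  have hfinp : IsFiniteMeasure (volume.restrict (phase p)) := ⟨by simpa using phase_fin hp⟩
  rw [integral_sub hf (integrable_const _), integral_const]
  unfold mean
  rw [smul_eq_mul, measureReal_restrict_apply_univ, mul_div_cancel₀ _ (phase_pos hp).ne', sub_self]

theorem cov_eq {f g : ℂ × ℝ → ℝ} (hf : Integrable f (volume.restrict (phase p)))
    (hg : Integrable g (volume.restrict (phase p)))
    (hfg : Integrable (fun x => f x * g x) (volume.restrict (phase p))) :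
    cov p f g = (∫ x in phase p, (f x - mean p f) * (g x - mean p g)) / volume.real (phase p) := by
  have hfinp : IsFiniteMeasure (volume.restrict (phase p)) := ⟨by simpa using phase_fin hp⟩
  have h1 : ∀ x, (f x - mean p f) * (g x - mean p g) =
      f x * g x - mean p g * f x - mean p f * g x + mean p f * mean p g := by
    intro x; ring
  simp only [h1]
  have q1 := integral_add (μ := volume.restrict (phase p))
    (f := fun x => f x * g x - mean p g * f x - mean p f * g x) (g := fun _ => mean p f * mean p g)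
    ((hfg.sub (hf.const_mul _)).sub (hg.const_mul _)) (integrable_const _)
  have q2 := integral_sub (μ := volume.restrict (phase p))
    (f := fun x => f x * g x - mean p g * f x) (g := fun x => mean p f * g x)
    (hfg.sub (hf.const_mul _)) (hg.const_mul _)
  have q3 := integral_sub (μ := volume.restrict (phase p))
    (f := fun x => f x * g x) (g := fun x => mean p g * f x) hfg (hf.const_mul _)
  rw [q1, q2, q3, integral_const_mul, integral_const_mul, integral_const]
  have hV := (phase_pos hp).ne'
  have e1 : ∫ x in phase p, f x = mean p f * volume.real (phase p) := by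
    unfold mean; field_simp
  have e2 : ∫ x in phase p, g x = mean p g * volume.real (phase p) := by
    unfold mean; field_simp
  rw [e1, e2, smul_eq_mul, measureReal_restrict_apply_univ]
  unfold cov
  have e3 : mean p (fun x => f x * g x) = (∫ x in phase p, f x * g x) / volume.real (phase p) := rfl
  rw [e3]
  field_simp
  ring

/-- the correlation bound for bounded functions -/
theorem corr_bdd {f : ℂ × ℝ → ℝ} (hfm : Measurable f) (hfb : ∃ C : ℝ, ∀ x, |f x| ≤ C)
    (hI : IsInvariantFun p f) {g : ℂ → ℝ} (hg : MemLp g 2 (volume.restrict (region p))) :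
    3 * cov p f (fun x => g x.1) ^ 2 ≤
      cov p f f * cov p (fun x => g x.1) (fun x => g x.1) := by
  obtain ⟨C, hC⟩ := hfb
  have hfinr : IsFiniteMeasure (volume.restrict (region p)) := ⟨by simpa using reg_fin hp⟩
  have hfinp : IsFiniteMeasure (volume.restrict (phase p)) := ⟨by simpa using phase_fin hp⟩
  have hG : MemLp (fun x : ℂ × ℝ => g x.1) 2 (volume.restrict (phase p)) := by
    rw [phase_restrict]
    exact hg.comp_fst _
  have hfL : MemLp f 2 (volume.restrict (phase p)) :=
    MemLp.of_bound hfm.aestronglyMeasurable C (ae_of_all _ hC)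
  have if1 := hfL.integrable one_le_two
  have ig1 := hG.integrable one_le_two
  rw [cov_eq hp if1 ig1 (hfL.integrable_mul hG), cov_eq hp if1 if1 (hfL.integrable_mul hfL),
    cov_eq hp ig1 ig1 (hG.integrable_mul hG)]
  set mf := mean p f
  set mg := mean p (fun x : ℂ × ℝ => g x.1)
  have h1 := prod_third hp (f := fun x => f x - mf) (hfm.sub_const _)
    ⟨C + |mf|, fun x => by
      have h1 := abs_sub (f x) mf
      have h2 := hC x
      linarith⟩ (inv_comp hI (fun y => y - mf)) (mean_sub_const hp if1)
    (g := fun z => g z - mg) (hg.sub (memLp_const _))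
  have hV := phase_pos hp
  have e1 : ∀ x : ℂ × ℝ, (f x - mf) * (f x - mf) = (f x - mf) ^ 2 := fun x => by ring
  have e2 : ∀ x : ℂ × ℝ, (g x.1 - mg) * (g x.1 - mg) = (g x.1 - mg) ^ 2 := fun x => by ring
  simp only [e1, e2]
  rw [div_pow, div_mul_div_comm, ← mul_div_assoc, sq (volume.real (phase p))]
  exact div_le_div_of_nonneg_right h1 (by positivity)

/-- the correlation bound for square integrable functions -/
theorem corr {f : ℂ × ℝ → ℝ} (hfm : Measurable f) (hf2 : MemLp f 2 (volume.restrict (phase p)))
    (hI : IsInvariantFun p f) {g : ℂ → ℝ} (hg : MemLp g 2 (volume.restrict (region p))) :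
    3 * cov p f (fun x => g x.1) ^ 2 ≤
      cov p f f * cov p (fun x => g x.1) (fun x => g x.1) := by
  have hfinp : IsFiniteMeasure (volume.restrict (phase p)) := ⟨by simpa using phase_fin hp⟩
  have hfinr : IsFiniteMeasure (volume.restrict (region p)) := ⟨by simpa using reg_fin hp⟩
  have hG : MemLp (fun x : ℂ × ℝ => g x.1) 2 (volume.restrict (phase p)) := by
    rw [phase_restrict]
    exact hg.comp_fst _
  set T : ℕ → ℂ × ℝ → ℝ := fun N x => max (-(N : ℝ)) (min (f x) N) with hT
  have hTm : ∀ N, Measurable (T N) := fun N => measurable_const.max (hfm.min measurable_const)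
  have hTb : ∀ N x, |T N x| ≤ N := by
    intro N x
    have hN : (0 : ℝ) ≤ N := Nat.cast_nonneg N
    rw [abs_le]
    exact ⟨le_max_left _ _, max_le (by linarith) (min_le_right _ _)⟩
  have hTf : ∀ N x, |T N x| ≤ |f x| := by
    intro N x
    have hN : (0 : ℝ) ≤ N := Nat.cast_nonneg N
    simp only [hT]
    rcases le_total 0 (f x) with h | h
    · rw [max_eq_right (by have := le_min h hN; linarith), abs_of_nonneg (le_min h hN),
        abs_of_nonneg h]
      exact min_le_left _ _
    · rw [min_eq_left (by linarith), abs_of_nonpos (max_le (by linarith) h), abs_of_nonpos h]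
      have := le_max_right (-(N : ℝ)) (f x)
      linarith
  have hTI : ∀ N, IsInvariantFun p (T N) := fun N =>
    inv_comp hI (fun y => max (-(N : ℝ)) (min y N))
  have hTlim : ∀ x, Tendsto (fun N => T N x) atTop (𝓝 (f x)) := by
    intro x
    obtain ⟨M, hM⟩ := exists_nat_ge |f x|
    refine tendsto_const_nhds.congr' ?_
    filter_upwards [eventually_ge_atTop M] with N hN
    have h1 : |f x| ≤ N := hM.trans (by exact_mod_cast hN)
    obtain ⟨h2, h3⟩ := abs_le.1 h1
    simp only [hT]
    rw [min_eq_left h3, max_eq_right h2]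
  have if1 := hf2.integrable one_le_two
  have ifg : Integrable (fun x : ℂ × ℝ => f x * g x.1) (volume.restrict (phase p)) :=
    hf2.integrable_mul hG
  have l1 : Tendsto (fun N => mean p (T N)) atTop (𝓝 (mean p f)) := by
    unfold mean
    refine Tendsto.div_const ?_ _
    exact tendsto_integral_of_dominated_convergence (fun x => |f x|)
      (fun N => (hTm N).aestronglyMeasurable) if1.abs (fun N => ae_of_all _ fun x => hTf N x)
      (ae_of_all _ hTlim)
  have l2 : Tendsto (fun N => mean p (fun x => T N x * T N x)) atTop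
      (𝓝 (mean p (fun x => f x * f x))) := by
    unfold mean
    refine Tendsto.div_const ?_ _
    refine tendsto_integral_of_dominated_convergence (fun x => f x * f x)
      (fun N => ((hTm N).mul (hTm N)).aestronglyMeasurable) (hf2.integrable_mul hf2)
      (fun N => ae_of_all _ fun x => ?_) (ae_of_all _ fun x => (hTlim x).mul (hTlim x))
    rw [Real.norm_eq_abs, abs_mul, ← abs_mul_abs_self (f x)]
    exact mul_le_mul (hTf N x) (hTf N x) (abs_nonneg _) (abs_nonneg _)
  have l3 : Tendsto (fun N => mean p (fun x => T N x * g x.1)) atTop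
      (𝓝 (mean p (fun x => f x * g x.1))) := by
    unfold mean
    refine Tendsto.div_const ?_ _
    refine tendsto_integral_of_dominated_convergence (fun x => |f x * g x.1|)
      (fun N => (hTm N).aestronglyMeasurable.mul hG.1) ifg.abs
      (fun N => ae_of_all _ fun x => ?_) (ae_of_all _ fun x => (hTlim x).mul_const _)
    rw [Real.norm_eq_abs, abs_mul, abs_mul]
    exact mul_le_mul_of_nonneg_right (hTf N x) (abs_nonneg _)
  have h := fun N => corr_bdd hp (hTm N) ⟨N, hTb N⟩ (hTI N) hg
  unfold cov at h ⊢
  have t1 := (((l3.sub (l1.mul_const (mean p (fun x => g x.1)))).pow 2).const_mul 3)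
  have t2 := ((l2.sub (l1.mul l1)).mul_const (mean p (fun x => g x.1 * g x.1) -
    mean p (fun x => g x.1) * mean p (fun x => g x.1)))
  exact le_of_tendsto_of_tendsto' t1 t2 h

end

end Pool.Agent.L5helper84.BL
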