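import Pool.Agent.L5helper84.BL.Corr

/-!
The variance of the angular mean.
-/

set_option autoImplicit false

namespace Pool.Agent.L5helper84.BL

open Complex Set MeasureTheory Filter Topology Pool.Agent.W780.PG Pool.Agent.W780.BB
  Pool.Agent.TH103.BL Pool.Agent.N440.LB Pool.Agent.N370.LB

open scoped Real ComplexConjugate

variable {n : ℕ}

theorem exp_two_int : ∫ θ in (0 : ℝ)..(2 * π), exp (((2 : ℕ) * θ : ℝ) * I) = 0 := by
  have h : ∀ θ : ℝ, exp (((2 : ℕ) * θ : ℝ) * I) = exp ((2 * I) * (θ : ℂ)) := by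
    intro θ; congr 1; push_cast; ring
  simp only [h]
  rw [integral_exp_mul_complex (by simp)]
  have h1 : exp ((2 * I) * ((2 * π : ℝ) : ℂ)) = 1 := by
    rw [show (2 * I) * ((2 * π : ℝ) : ℂ) = (2 : ℕ) * (2 * π * I) by push_cast; ring,
      exp_nat_mul_two_pi_mul_I]
  rw [h1]
  simp

theorem en_shift {p : Fin (n + 3) → ℂ} (hp : IsConvexPolygon p) {f : ℂ × ℝ → ℝ}
    (hfm : Measurable f) (hfb : ∃ C : ℝ, ∀ x, |f x| ≤ C) (m : ℝ) :
    En p (fun x => f x - m) 0 =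
      ∫ z in region p, ((∫ θ in (0 : ℝ)..(2 * π), f (z, θ)) - 2 * π * m) ^ 2 ∧
    En p (fun x => f x - m) 2 =
      ∫ z in region p, ‖∫ θ in (0 : ℝ)..(2 * π), (f (z, θ) : ℂ) * exp (((2 * θ : ℝ) : ℂ) * I)‖ ^ 2 := by
  obtain ⟨C, hC⟩ := hfb
  have hi : ∀ z, IntervalIntegrable (fun θ => f (z, θ)) volume 0 (2 * π) := fun z =>
    ii (hfm.comp measurable_prodMk_left).stronglyMeasurable (fun θ => hC (z, θ))
  constructor
  · rw [en_zero, reg_eq hp]
    refine integral_congr_ae (ae_of_all _ fun z => ?_)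
    simp only
    rw [intervalIntegral.integral_sub (hi z) intervalIntegrable_const,
      intervalIntegral.integral_const]
    simp
  · unfold En
    rw [reg_eq hp]
    refine integral_congr_ae (ae_of_all _ fun z => ?_)
    simp only
    have h1 : ∀ θ : ℝ, ((f (z, θ) - m : ℝ) : ℂ) * exp (((2 : ℕ) * θ : ℝ) * I) =
        (f (z, θ) : ℂ) * exp (((2 * θ : ℝ) : ℂ) * I) - (m : ℂ) * exp (((2 : ℕ) * θ : ℝ) * I) := by
      intro θ; push_cast; ring
    simp only [h1]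
    have hcont : Continuous fun θ : ℝ => exp (((2 : ℕ) * θ : ℝ) * I) := by fun_prop
    have hcont' : Continuous fun θ : ℝ => exp (((2 * θ : ℝ) : ℂ) * I) := by fun_prop
    have hof : IntervalIntegrable (fun θ => (f (z, θ) : ℂ)) volume 0 (2 * π) :=
      ⟨(hi z).1.ofReal, (hi z).2.ofReal⟩
    have q := intervalIntegral.integral_sub (μ := volume) (a := 0) (b := 2 * π)
      (f := fun θ : ℝ => (f (z, θ) : ℂ) * exp (((2 * θ : ℝ) : ℂ) * I))
      (g := fun θ : ℝ => (m : ℂ) * exp (((2 : ℕ) * θ : ℝ) * I))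
      (hof.mul_continuousOn hcont'.continuousOn)
      ((continuous_const.mul hcont).intervalIntegrable _ _)
    rw [q, intervalIntegral.integral_const_mul, exp_two_int, mul_zero, sub_zero]

/-- the variance of the angular mean -/
theorem variance {p : Fin (n + 3) → ℂ} (hp : IsConvexPolygon p) {f : ℂ × ℝ → ℝ}
    (hfm : Measurable f) (hfb : ∃ C : ℝ, ∀ x, |f x| ≤ C) (hI : IsInvariantFun p f) :
    ∫ z in region p, ((∫ θ in (0 : ℝ)..(2 * π), f (z, θ)) - 2 * π * mean p f) ^ 2 ≤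
      ∫ z in region p, ‖∫ θ in (0 : ℝ)..(2 * π), (f (z, θ) : ℂ) * exp (((2 * θ : ℝ) : ℂ) * I)‖ ^ 2 := by
  obtain ⟨h1, h2⟩ := en_shift hp hfm hfb (mean p f)
  rw [← h1, ← h2]
  obtain ⟨C, hC⟩ := hfb
  have hb : ∀ x, |f x - mean p f| ≤ C + |mean p f| := fun x => by
    have h1 := abs_sub (f x) (mean p f)
    have h2 := hC x
    linarith
  refine en_ineq hp (hfm.sub_const _) ⟨_, hb⟩ (inv_comp hI (fun y => y - mean p f)) ?_
  rw [← phase_int' hp (bdd_int hp (hfm.sub_const _) hb)]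
  exact mean_sub_const hp (bdd_int hp hfm hC)

/-- equality for triangles -/
theorem variance_eq {p : Fin (0 + 3) → ℂ} (hp : IsConvexPolygon p) {f : ℂ × ℝ → ℝ}
    (hfm : Measurable f) (hfb : ∃ C : ℝ, ∀ x, |f x| ≤ C) (hI : IsInvariantFun p f) :
    ∫ z in region p, ((∫ θ in (0 : ℝ)..(2 * π), f (z, θ)) - 2 * π * mean p f) ^ 2 =
      ∫ z in region p, ‖∫ θ in (0 : ℝ)..(2 * π), (f (z, θ) : ℂ) * exp (((2 * θ : ℝ) : ℂ) * I)‖ ^ 2 := by
  obtain ⟨h1, h2⟩ := en_shift hp hfm hfb (mean p f)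
  rw [← h1, ← h2]
  obtain ⟨C, hC⟩ := hfb
  have hb : ∀ x, |f x - mean p f| ≤ C + |mean p f| := fun x => by
    have h1 := abs_sub (f x) (mean p f)
    have h2 := hC x
    linarith
  refine en_eq hp (hfm.sub_const _) ⟨_, hb⟩ (inv_comp hI (fun y => y - mean p f)) ?_
  rw [← phase_int' hp (bdd_int hp (hfm.sub_const _) hb)]
  exact mean_sub_const hp (bdd_int hp hfm hC)

end Pool.Agent.L5helper84.BL
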