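import Pool.Agent.L5helper84.BL.Base

/-!
Time reversal: if all sides but one are parallel or perpendicular to each other, then all invariant
functions are invariant under the reversal of the direction.
-/

set_option autoImplicit false

namespace Pool.Agent.L5helper84.BL

open Complex Set MeasureTheory Filter Topology Pool.Agent.W780.PG Pool.Agent.W780.BB
  Pool.Agent.TH103.BL Pool.Agent.N440.LB

open scoped Real ComplexConjugate

variable {n : ℕ}

theorem dir_add_pi (θ : ℝ) : dir (θ + π) = - dir θ := by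
  unfold dir
  rw [ofReal_add, add_mul, exp_add, exp_pi_mul_I]
  ring

/-- reversal of the direction maps invariant functions to invariant functions -/
theorem inv_rev {p : Fin (n + 3) → ℂ} {f : ℂ × ℝ → ℝ} (h : IsInvariantFun p f) :
    IsInvariantFun p (fun x => f (x.1, x.2 + π)) := by
  refine ⟨fun z θ => ?_, fun z θ s hz hs => ?_, fun i y hy θ s r hs hr h1 h2 => ?_⟩
  · simp only
    rw [show θ + 2 * π + π = θ + π + 2 * π by ring]
    exact h.periodic _ _
  · simp only
    have h1 : z + s • dir θ = z + (-s) • dir (θ + π) := by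
      rw [dir_add_pi]; simp
    rw [h1]
    exact h.free z (θ + π) (-s) hz (by rw [← h1]; exact hs)
  · simp only
    set θ' := 2 * tau p i - θ + π with hθ'
    have e1 : dir (2 * tau p i - θ) = - dir θ' := by
      rw [hθ', dir_add_pi, neg_neg]
    have e3 : θ + π = (2 * tau p i - θ') + 2 * π := by rw [hθ']; ring
    have e2 : dir (2 * tau p i - θ') = - dir θ := by
      have h3 : 2 * tau p i - θ' + π = θ := by rw [hθ']; ring
      have h4 := dir_add_pi (2 * tau p i - θ')
      rw [h3] at h4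
      rw [h4, neg_neg]
    have h5 := h.reflect i y hy θ' r s hr hs (by
      have : y - r • dir θ' = y + r • dir (2 * tau p i - θ) := by rw [e1, smul_neg, sub_eq_add_neg]
      rw [this]; exact h2) (by
      have : y + s • dir (2 * tau p i - θ') = y - s • dir θ := by rw [e2]; simp [sub_eq_add_neg]
      rw [this]; exact h1)
    have h6 : y - r • dir θ' = y + r • dir (2 * tau p i - θ) := by
      rw [e1, smul_neg, sub_eq_add_neg]
    have h7 : y + s • dir (2 * tau p i - θ') = y - s • dir θ := by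
      rw [e2]; simp [sub_eq_add_neg]
    rw [h6, h7] at h5
    rw [e3, h.periodic]
    exact h5.symm

theorem inv_sub {p : Fin (n + 3) → ℂ} {f g : ℂ × ℝ → ℝ} (hf : IsInvariantFun p f)
    (hg : IsInvariantFun p g) : IsInvariantFun p (fun x => f x - g x) := by
  refine ⟨fun z θ => ?_, fun z θ s hz hs => ?_, fun i y hy θ s r hs hr h1 h2 => ?_⟩
  · simp only [hf.periodic, hg.periodic]
  · rw [hf.free z θ s hz hs, hg.free z θ s hz hs]
  · rw [hf.reflect i y hy θ s r hs hr h1 h2, hg.reflect i y hy θ s r hs hr h1 h2]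

theorem inv_comp {p : Fin (n + 3) → ℂ} {f : ℂ × ℝ → ℝ} (hf : IsInvariantFun p f) (u : ℝ → ℝ) :
    IsInvariantFun p (fun x => u (f x)) := by
  refine ⟨fun z θ => ?_, fun z θ s hz hs => ?_, fun i y hy θ s r hs hr h1 h2 => ?_⟩
  · simp only [hf.periodic]
  · rw [hf.free z θ s hz hs]
  · rw [hf.reflect i y hy θ s r hs hr h1 h2]

/-- the even coefficients of a function which is odd under reversal vanish -/
theorem en_even {p : Fin (n + 3) → ℂ} {g : ℂ × ℝ → ℝ} (hper : ∀ z θ, g (z, θ + 2 * π) = g (z, θ))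
    (hodd : ∀ z θ, g (z, θ + π) = - g (z, θ)) {m : ℕ} (hm : Even m) : En p g m = 0 := by
  unfold En
  have h0 : ∀ z : ℂ, ∫ θ in (0 : ℝ)..(2 * π), (g (z, θ) : ℂ) * exp ((m * θ : ℝ) * I) = 0 := by
    intro z
    set h : ℝ → ℂ := fun θ => (g (z, θ) : ℂ) * exp ((m * θ : ℝ) * I) with hh
    obtain ⟨l, hl⟩ := hm
    have e1 : ∀ θ : ℝ, exp ((m * (θ + π) : ℝ) * I) = exp ((m * θ : ℝ) * I) := by
      intro θ
      have : ((m * (θ + π) : ℝ) : ℂ) * I = (m * θ : ℝ) * I + (l : ℤ) * (2 * π * I) := by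
        rw [hl]; push_cast; ring
      rw [this, exp_add, exp_int_mul_two_pi_mul_I, mul_one]
    have h1 : ∀ θ, h (θ + π) = - h θ := by
      intro θ
      simp only [hh, e1, hodd]
      push_cast
      ring
    have h2 : Function.Periodic h (2 * π) := by
      intro θ
      rw [show θ + 2 * π = θ + π + π by ring, h1, h1, neg_neg]
    have h3 : ∫ θ in (0 : ℝ)..(2 * π), h (θ + π) = ∫ θ in (0 : ℝ)..(2 * π), h θ := by
      rw [intervalIntegral.integral_comp_add_right]
      have := h2.intervalIntegral_add_eq π 0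
      rw [zero_add] at this
      rw [zero_add, add_comm (2 * π) π]
      exact this
    have h4 : ∫ θ in (0 : ℝ)..(2 * π), h (θ + π) = - ∫ θ in (0 : ℝ)..(2 * π), h θ := by
      rw [← intervalIntegral.integral_neg]
      exact intervalIntegral.integral_congr fun θ _ => h1 θ
    have h5 : ∫ θ in (0 : ℝ)..(2 * π), h θ = - ∫ θ in (0 : ℝ)..(2 * π), h θ := h3.symm.trans h4
    have h6 : (2 : ℂ) * ∫ θ in (0 : ℝ)..(2 * π), h θ = 0 := by
      linear_combination h5
    exact (mul_eq_zero.1 h6).resolve_left two_ne_zero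
  simp only [h0]
  simp

theorem edge_dir (p : Fin (n + 3) → ℂ) (i : Fin (n + 3)) :
    p (i + 1) - p i = ‖p (i + 1) - p i‖ * exp ((tau p i : ℂ) * I) := by
  unfold tau
  exact (norm_mul_exp_arg_mul_I _).symm

/-- sides which are parallel or perpendicular -/
theorem sin_two {p : Fin (n + 3) → ℂ} (hne : ∀ i, p i ≠ p (i + 1)) {i j : Fin (n + 3)}
    (h : (conj (p (i + 1) - p i) * (p (j + 1) - p j)).re = 0 ∨
      (conj (p (i + 1) - p i) * (p (j + 1) - p j)).im = 0) :
    Real.sin (2 * (tau p i - tau p j)) = 0 := by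
  have hi : 0 < ‖p (i + 1) - p i‖ := norm_pos_iff.2 (sub_ne_zero.2 (hne i).symm)
  have hj : 0 < ‖p (j + 1) - p j‖ := norm_pos_iff.2 (sub_ne_zero.2 (hne j).symm)
  have h1 : conj (p (i + 1) - p i) * (p (j + 1) - p j) =
      ((‖p (i + 1) - p i‖ * ‖p (j + 1) - p j‖ : ℝ) : ℂ) * exp (((tau p j - tau p i : ℝ) : ℂ) * I) := by
    conv_lhs => rw [edge_dir p i, edge_dir p j]
    have h2 : conj (exp ((tau p i : ℂ) * I)) = exp (-(tau p i : ℂ) * I) := by
      rw [← exp_conj, map_mul, conj_ofReal, conj_I]; congr 1; ring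
    rw [map_mul, conj_ofReal, h2]
    rw [show (‖p (i + 1) - p i‖ : ℂ) * exp (-(tau p i : ℂ) * I) *
      (‖p (j + 1) - p j‖ * exp ((tau p j : ℂ) * I)) =
      ((‖p (i + 1) - p i‖ * ‖p (j + 1) - p j‖ : ℝ) : ℂ) *
        (exp (-(tau p i : ℂ) * I) * exp ((tau p j : ℂ) * I)) by push_cast; ring, ← exp_add]
    congr 2
    push_cast; ring
  rw [h1, re_ofReal_mul, im_ofReal_mul, exp_ofReal_mul_I_re, exp_ofReal_mul_I_im] at h
  have hp : (‖p (i + 1) - p i‖ * ‖p (j + 1) - p j‖) ≠ 0 := (mul_pos hi hj).ne'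
  have h2 : Real.sin (2 * (tau p i - tau p j)) =
      - (2 * Real.sin (tau p j - tau p i) * Real.cos (tau p j - tau p i)) := by
    rw [← Real.sin_two_mul, ← Real.sin_neg]; congr 1; ring
  rw [h2]
  rcases h with h | h
  · rw [(mul_eq_zero.1 h).resolve_left hp]; ring
  · rw [(mul_eq_zero.1 h).resolve_left hp]; ring

/-- the edges of the image polygon of even order are parallel -/
theorem edge_even {p : Fin (n + 3) → ℂ} {f : ℂ × ℝ → ℝ} {C : ℝ} {F : ℝ → ℝ → ℝ}
    (hF : Chord p f C F) {k : ℕ} (hk : Even k) {i j : Fin (n + 3)}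
    (h : Real.sin (2 * (tau p i - tau p j)) = 0) :
    (conj (I * exp (((k * tau p j : ℝ) : ℂ) * I)) * (Psi F k (p (i + 1)) - Psi F k (p i))).im = 0 := by
  obtain ⟨l, hl⟩ := hk
  have h1 := psi_edge hF k i
  set s : ℝ := ‖p (i + 1) - p i‖ * mom p F k i with hs
  have h2 : Psi F k (p (i + 1)) - Psi F k (p i) =
      exp (((k * tau p i : ℝ) : ℂ) * I) * (-(s : ℂ) * I) := by
    rw [← h1, ← mul_assoc, ← exp_add]
    simp
  have h3 : conj (I * exp (((k * tau p j : ℝ) : ℂ) * I)) =
      -I * exp (-((k * tau p j : ℝ) : ℂ) * I) := by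
    rw [map_mul, conj_I, ← exp_conj, map_mul, conj_ofReal, conj_I]
    congr 2; ring
  rw [h2, h3]
  have h4 : -I * exp (-((k * tau p j : ℝ) : ℂ) * I) *
      (exp (((k * tau p i : ℝ) : ℂ) * I) * (-(s : ℂ) * I)) =
      ((-s : ℝ) : ℂ) * exp (((k * (tau p i - tau p j) : ℝ) : ℂ) * I) := by
    rw [show -I * exp (-((k * tau p j : ℝ) : ℂ) * I) *
      (exp (((k * tau p i : ℝ) : ℂ) * I) * (-(s : ℂ) * I)) =
      (I * I) * (s : ℂ) * (exp (-((k * tau p j : ℝ) : ℂ) * I) *
        exp (((k * tau p i : ℝ) : ℂ) * I)) by ring, ← exp_add, I_mul_I]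
    push_cast
    rw [show -((k : ℂ) * (tau p j : ℂ)) * I + (k : ℂ) * (tau p i : ℂ) * I =
      (k : ℂ) * ((tau p i : ℂ) - (tau p j : ℂ)) * I by ring]
    ring
  rw [h4, im_ofReal_mul, exp_ofReal_mul_I_im]
  obtain ⟨m, hm⟩ := Real.sin_eq_zero_iff.1 h
  have h5 : (k : ℝ) * (tau p i - tau p j) = ((l * m : ℤ) : ℝ) * π := by
    rw [hl]
    push_cast
    rw [show ((l : ℝ) + l) * (tau p i - tau p j) = l * (2 * (tau p i - tau p j)) by ring, ← hm]
    ring
  rw [h5, Real.sin_int_mul_pi, mul_zero]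

/-- Invariant functions are invariant under reversal of the direction if all sides but one are
parallel or perpendicular to each other. -/
theorem reversal {p : Fin (n + 3) → ℂ} (hp : IsConvexPolygon p) (i₀ : Fin (n + 3))
    (hpar : ∀ i j, i ≠ i₀ → j ≠ i₀ → (conj (p (i + 1) - p i) * (p (j + 1) - p j)).re = 0 ∨
      (conj (p (i + 1) - p i) * (p (j + 1) - p j)).im = 0)
    {f : ℂ × ℝ → ℝ} (hf : Measurable f) (hI : IsInvariantFun p f) :
    ∀ᵐ x : ℂ × ℝ, x.1 ∈ region p → f (x.1, x.2 + π) = f x := by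
  set u : ℂ × ℝ → ℝ := fun x => Real.arctan (f x) with hu
  have hum : Measurable u := Real.measurable_arctan.comp hf
  have huI : IsInvariantFun p u := inv_comp hI Real.arctan
  set g : ℂ × ℝ → ℝ := fun x => u x - u (x.1, x.2 + π) with hg
  have hgm : Measurable g := hum.sub (hum.comp (measurable_fst.prodMk (measurable_snd.add_const π)))
  have hgI : IsInvariantFun p g := inv_sub huI (inv_rev huI)
  have hub : ∀ x, |u x| ≤ 2 := by
    intro x
    have h1 := Real.arctan_lt_pi_div_two (f x)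
    have h2 := Real.neg_pi_div_two_lt_arctan (f x)
    have h3 := Real.pi_lt_four
    rw [abs_le]
    constructor <;> simp only [hu] <;> linarith
  have hgb : ∃ C : ℝ, ∀ x, |g x| ≤ C := ⟨4, fun x => by
    have h1 := abs_le.1 (hub x)
    have h2 := abs_le.1 (hub (x.1, x.2 + π))
    rw [abs_le]
    constructor <;> simp only [hg] <;> linarith⟩
  have hodd : ∀ z θ, g (z, θ + π) = - g (z, θ) := by
    intro z θ
    simp only [hg]
    rw [show θ + π + π = θ + 2 * π by ring, huI.periodic]
    ring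
  obtain ⟨C, F, hF⟩ := parts.ch parts.basic parts.hull n p hp g hgm hgb hgI
  have hz : ∀ᵐ x : ℂ × ℝ, x.1 ∈ region p → g x = 0 := by
    refine zero_of_en hp hgm hgb hgI.periodic fun k hk => ?_
    rcases Nat.even_or_odd k with hev | hod
    · have h1 := area_id hp hgm hgb hgI.periodic hF hk
      -- a side different from `i₀`
      have hj : ∃ j : Fin (n + 3), j ≠ i₀ := exists_ne i₀
      obtain ⟨j, hj⟩ := hj
      have h2 := area_par' (fun i => Psi F k (p i)) (I * exp (((k * tau p j : ℝ) : ℂ) * I)) i₀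
        (fun i hi => edge_even hF hev (sin_two (vert_ne parts.basic hp) (hpar i j hi hj)))
        (mul_ne_zero I_ne_zero (exp_ne_zero _))
      rw [h2] at h1
      linarith
    · have h1 : Even (k + 1) := hod.add_one
      have h2 : Even (k - 1) := by
        obtain ⟨m, hm⟩ := hod
        exact ⟨m, by omega⟩
      rw [en_even hgI.periodic hodd h1, en_even hgI.periodic hodd h2]
  filter_upwards [hz] with x hx hxr
  have h1 := hx hxr
  simp only [hg, hu] at h1
  exact Real.arctan_injective (by linarith)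

end Pool.Agent.L5helper84.BL
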