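import Pool.Agent.L5helper84.BL.Vir
import Pool.Agent.L5helper84.BL.Rev

/-!
The inequality for the energies of the coefficients of order 0 and 2, and Bessel's inequality.
-/

set_option autoImplicit false

namespace Pool.Agent.L5helper84.BL

open Complex Set MeasureTheory Filter Topology Pool.Agent.W780.PG Pool.Agent.W780.BB
  Pool.Agent.TH103.BL Pool.Agent.N440.LB Pool.Agent.N370.LB

open scoped Real ComplexConjugate

variable {n : ℕ}

/-- the edges of the pressure polygon -/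
theorem press_edge {p : Fin (n + 3) → ℂ} {f : ℂ × ℝ → ℝ} {C : ℝ} {F : ℝ → ℝ → ℝ}
    (hF : Chord p f C F) (i : Fin (n + 3)) :
    I * Psi F 1 (p (i + 1)) - I * Psi F 1 (p i) = (mom p F 1 i : ℂ) * (p (i + 1) - p i) := by
  have h1 := psi_edge hF 1 i
  have h2 : exp (((1 : ℕ) * tau p i : ℝ) * I) * exp (-(((1 : ℕ) * tau p i : ℝ) : ℂ) * I) = 1 := by
    rw [← exp_add]; simp
  have h3 : Psi F 1 (p (i + 1)) - Psi F 1 (p i) = exp (((1 : ℕ) * tau p i : ℝ) * I) *
      (-((‖p (i + 1) - p i‖ * mom p F 1 i : ℝ) : ℂ) * I) := by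
    rw [← h1, ← mul_assoc, h2, one_mul]
  have h4 := edge_dir p i
  rw [← mul_sub, h3]
  conv_rhs => rw [h4]
  rw [show ((1 : ℕ) * tau p i : ℝ) = tau p i by simp]
  push_cast
  linear_combination (-(exp ((tau p i : ℂ) * I)) * (‖p (i + 1) - p i‖ : ℂ) * (mom p F 1 i : ℂ)) * I_mul_I

theorem mean_chord {p : Fin (n + 3) → ℂ} (hp : IsConvexPolygon p) {f : ℂ × ℝ → ℝ} {C : ℝ}
    {F : ℝ → ℝ → ℝ} (hF : Chord p f C F) :
    ∫ θ in (0 : ℝ)..(2 * π), ∫ z in reg p, F θ (off θ z) =
      ∫ θ in (0 : ℝ)..(2 * π), ∫ z in reg p, f (z, θ) := by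
  have hm : MeasurableSet (reg p) := (parts.basic n p hp).2.1.measurableSet
  refine intervalIntegral.integral_congr fun θ _ => ?_
  exact setIntegral_congr_fun hm fun z hz => (hF.val θ z hz).symm

theorem ar_I (x : Fin (n + 3) → ℂ) :
    ∑ i, (conj (x (i + 1)) * x i).im = - ar (fun i => I * x i) := by
  unfold ar
  rw [← Finset.sum_neg_distrib]
  refine Finset.sum_congr rfl fun i _ => ?_
  simp only [mul_im, map_mul, conj_I, conj_re, conj_im, mul_re, neg_re, neg_im, I_re, I_im]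
  ring

/-- the inequality for the energies -/
theorem en_ineq {p : Fin (n + 3) → ℂ} (hp : IsConvexPolygon p) {f : ℂ × ℝ → ℝ}
    (hfm : Measurable f) (hfb : ∃ C : ℝ, ∀ x, |f x| ≤ C) (hI : IsInvariantFun p f)
    (hmean : ∫ θ in (0 : ℝ)..(2 * π), ∫ z in reg p, f (z, θ) = 0) :
    En p f 0 ≤ En p f 2 := by
  obtain ⟨C, F, hF⟩ := parts.ch parts.basic parts.hull n p hp f hfm hfb hI
  have h1 := area_id hp hfm hfb hI.periodic hF (k := 1) le_rfl
  have h2 := virial hp hF
  rw [mean_chord hp hF, hmean] at h2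
  have h3 := minkowski (X := fun i => I * Psi F 1 (p i)) hp (fun i => press_edge hF i) h2.symm
  have h0 := ar_I (fun i => Psi F 1 (p i))
  rw [h0] at h1
  simp only [Nat.reduceAdd, Nat.sub_self] at h1
  linarith

/-- in a triangle the energies are equal -/
theorem en_eq {p : Fin (0 + 3) → ℂ} (hp : IsConvexPolygon p) {f : ℂ × ℝ → ℝ}
    (hfm : Measurable f) (hfb : ∃ C : ℝ, ∀ x, |f x| ≤ C) (hI : IsInvariantFun p f)
    (hmean : ∫ θ in (0 : ℝ)..(2 * π), ∫ z in reg p, f (z, θ) = 0) :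
    En p f 0 = En p f 2 := by
  obtain ⟨C, F, hF⟩ := parts.ch parts.basic parts.hull 0 p hp f hfm hfb hI
  have h1 := area_id hp hfm hfb hI.periodic hF (k := 1) le_rfl
  have h2 := virial hp hF
  rw [mean_chord hp hF, hmean] at h2
  have he := fun i => press_edge hF i
  set X : Fin (0 + 3) → ℂ := fun i => I * Psi F 1 (p i) with hX
  set h : Fin (0 + 3) → ℝ := fun i => mom p F 1 i with hh
  have he' : ∀ i, X (i + 1) - X i = (h i : ℂ) * (p (i + 1) - p i) := he
  -- all factors are equal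
  have e0 := he' 0
  have e1 := he' 1
  have e2 := he' 2
  have i1 : (0 : Fin (0 + 3)) + 1 = 1 := rfl
  have i2 : (1 : Fin (0 + 3)) + 1 = 2 := rfl
  have i3 : (2 : Fin (0 + 3)) + 1 = 0 := rfl
  rw [i1] at e0
  rw [i2] at e1
  rw [i3] at e2
  have hsum : (h 0 : ℂ) * (p 1 - p 0) + (h 1 : ℂ) * (p 2 - p 1) + (h 2 : ℂ) * (p 0 - p 2) = 0 := by
    rw [← e0, ← e1, ← e2]; ring
  have hD : 0 < lft (p 0) (p 1) (p 2) := by
    have := hp.pos 0 2 (by decide) (by decide)
    rw [i1] at this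
    exact this
  have hD' : (conj (p 1 - p 0) * (p 2 - p 1)).im = lft (p 0) (p 1) (p 2) := by
    unfold lft
    simp only [mul_im, conj_re, conj_im, sub_re, sub_im]
    ring
  have hlin : ((h 0 - h 2 : ℝ) : ℂ) * (p 1 - p 0) + ((h 1 - h 2 : ℝ) : ℂ) * (p 2 - p 1) = 0 := by
    push_cast
    linear_combination hsum
  have c1 : h 1 = h 2 := by
    have h4 : (conj (p 1 - p 0) * (((h 0 - h 2 : ℝ) : ℂ) * (p 1 - p 0) +
        ((h 1 - h 2 : ℝ) : ℂ) * (p 2 - p 1))).im = 0 := by rw [hlin]; simp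
    have h5 : conj (p 1 - p 0) * (((h 0 - h 2 : ℝ) : ℂ) * (p 1 - p 0) +
        ((h 1 - h 2 : ℝ) : ℂ) * (p 2 - p 1)) =
        (((h 0 - h 2) * normSq (p 1 - p 0) : ℝ) : ℂ) +
          ((h 1 - h 2 : ℝ) : ℂ) * (conj (p 1 - p 0) * (p 2 - p 1)) := by
      rw [ofReal_mul, normSq_eq_conj_mul_self]; ring
    rw [h5, add_im, ofReal_im, zero_add, im_ofReal_mul, hD'] at h4
    have := (mul_eq_zero.1 h4).resolve_right hD.ne'
    linarith
  have c0 : h 0 = h 2 := by
    rw [c1, sub_self] at hlin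
    simp only [ofReal_zero, zero_mul, add_zero] at hlin
    have hne : p 1 - p 0 ≠ 0 := by
      intro h4
      rw [sub_eq_zero] at h4
      unfold lft at hD
      rw [h4] at hD
      simp at hD
    have := (mul_eq_zero.1 hlin).resolve_right hne
    have h4 : (h 0 - h 2 : ℝ) = 0 := by exact_mod_cast this
    linarith
  have hall : ∀ i, h i = h 2 := by
    intro i
    fin_cases i
    · exact c0
    · exact c1
    · rfl
  have hz : h 2 = 0 := by
    have h4 : h 2 * ar p = 0 := by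
      unfold ar
      rw [Finset.mul_sum, h2]
      refine Finset.sum_congr rfl fun i _ => ?_
      have h5 : mom p F 1 i = h 2 := hall i
      rw [h5, mul_sub, sub_im]
      have : (conj (p i) * p i).im = 0 := by rw [← normSq_eq_conj_mul_self, ofReal_im]
      rw [this, sub_zero]
    exact (mul_eq_zero.1 h4).resolve_right (ar_pos hp).ne'
  have hconst : ∀ i, X (i + 1) = X i := by
    intro i
    have := he' i
    rw [hall i, hz] at this
    simp only [ofReal_zero, zero_mul] at this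
    exact sub_eq_zero.1 this
  have har : ar X = 0 := by
    unfold ar
    refine Finset.sum_eq_zero fun i _ => ?_
    rw [hconst i, ← normSq_eq_conj_mul_self, ofReal_im]
  have h0 := ar_I (fun i => Psi F 1 (p i))
  rw [h0] at h1
  simp only [Nat.reduceAdd, Nat.sub_self] at h1
  have h7 : ar (fun i => I * Psi F 1 (p i)) = 0 := har
  rw [h7] at h1
  linarith

/-- Bessel's inequality for the coefficients of order 0 and 2 -/
theorem bessel (a : ℝ → ℝ) (C : ℝ) (ha : Measurable a) (hb : ∀ θ, |a θ| ≤ C) :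
    ‖∫ θ in (0 : ℝ)..(2 * π), (a θ : ℂ) * exp (((0 : ℕ) * θ : ℝ) * I)‖ ^ 2 +
      2 * ‖∫ θ in (0 : ℝ)..(2 * π), (a θ : ℂ) * exp (((2 : ℕ) * θ : ℝ) * I)‖ ^ 2 ≤
      2 * π * ∫ θ in (0 : ℝ)..(2 * π), a θ ^ 2 := by
  have hpi := Real.pi_pos
  have hi : ∀ (u : ℝ → ℝ), Continuous u → IntervalIntegrable (fun θ => a θ * u θ) volume 0 (2 * π) := by
    intro u hu
    refine IntervalIntegrable.mul_continuousOn ?_ hu.continuousOn
    exact ii ha.stronglyMeasurable (fun θ => hb θ)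
  have hia : IntervalIntegrable a volume 0 (2 * π) := ii ha.stronglyMeasurable (fun θ => hb θ)
  have hia2 : IntervalIntegrable (fun θ => a θ ^ 2) volume 0 (2 * π) := by
    refine ii (K := C ^ 2) (ha.pow_const 2).stronglyMeasurable fun θ => ?_
    rw [Real.norm_eq_abs, abs_pow]
    exact pow_le_pow_left₀ (abs_nonneg _) (hb θ) 2
  set A0 : ℝ := ∫ θ in (0 : ℝ)..(2 * π), a θ with hA0
  set A : ℝ := ∫ θ in (0 : ℝ)..(2 * π), a θ * Real.cos (2 * θ) with hA
  set B : ℝ := ∫ θ in (0 : ℝ)..(2 * π), a θ * Real.sin (2 * θ) with hB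
  have hcos : Continuous fun θ : ℝ => Real.cos (2 * θ) := by fun_prop
  have hsin : Continuous fun θ : ℝ => Real.sin (2 * θ) := by fun_prop
  have e0 : ∫ θ in (0 : ℝ)..(2 * π), (a θ : ℂ) * exp (((0 : ℕ) * θ : ℝ) * I) = (A0 : ℂ) := by
    simp only [Nat.cast_zero, zero_mul, ofReal_zero, exp_zero, mul_one]
    rw [intervalIntegral.integral_ofReal]
  have e2 : ∫ θ in (0 : ℝ)..(2 * π), (a θ : ℂ) * exp (((2 : ℕ) * θ : ℝ) * I) =
      (A : ℂ) + (B : ℂ) * I := by
    have h1 : ∀ θ : ℝ, (a θ : ℂ) * exp (((2 : ℕ) * θ : ℝ) * I) =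
        ((a θ * Real.cos (2 * θ) : ℝ) : ℂ) + ((a θ * Real.sin (2 * θ) : ℝ) : ℂ) * I := by
      intro θ
      rw [exp_mul_I, ← ofReal_cos, ← ofReal_sin]
      push_cast
      ring
    simp only [h1]
    have hof : ∀ u : ℝ → ℝ, IntervalIntegrable u volume 0 (2 * π) →
        IntervalIntegrable (fun θ => (u θ : ℂ)) volume 0 (2 * π) :=
      fun u hu => ⟨hu.1.ofReal, hu.2.ofReal⟩
    rw [intervalIntegral.integral_add (hof _ (hi _ hcos)) ((hof _ (hi _ hsin)).mul_const I),
      intervalIntegral.integral_mul_const, intervalIntegral.integral_ofReal,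
      intervalIntegral.integral_ofReal]
  have n2 : ‖(A : ℂ) + (B : ℂ) * I‖ ^ 2 = A ^ 2 + B ^ 2 := by
    rw [← normSq_eq_norm_sq, normSq_add_mul_I]
  rw [e0, e2, n2]
  have n0 : ‖(A0 : ℂ)‖ ^ 2 = A0 ^ 2 := by
    rw [norm_real, Real.norm_eq_abs, sq_abs]
  rw [n0]
  -- the square
  have hpos : 0 ≤ ∫ θ in (0 : ℝ)..(2 * π),
      (a θ - A0 / (2 * π) - (A * Real.cos (2 * θ) + B * Real.sin (2 * θ)) / π) ^ 2 :=
    intervalIntegral.integral_nonneg (by positivity) fun θ _ => sq_nonneg _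
  have hexp : ∀ θ : ℝ, (a θ - A0 / (2 * π) - (A * Real.cos (2 * θ) + B * Real.sin (2 * θ)) / π) ^ 2 =
      a θ ^ 2 - (A0 / π) * a θ - (2 * A / π) * (a θ * Real.cos (2 * θ)) -
        (2 * B / π) * (a θ * Real.sin (2 * θ)) +
      ((A0 / (2 * π)) ^ 2 + (A ^ 2 + B ^ 2) / (2 * π ^ 2) +
        (A0 * A / π ^ 2) * Real.cos (2 * θ) + (A0 * B / π ^ 2) * Real.sin (2 * θ) +
        ((A ^ 2 - B ^ 2) / (2 * π ^ 2)) * Real.cos (4 * θ) + (A * B / π ^ 2) * Real.sin (4 * θ)) := by
    intro θ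
    have c4 : Real.cos (4 * θ) = 2 * Real.cos (2 * θ) ^ 2 - 1 := by
      rw [← Real.cos_two_mul]; congr 1; ring
    have s4 : Real.sin (4 * θ) = 2 * Real.sin (2 * θ) * Real.cos (2 * θ) := by
      rw [← Real.sin_two_mul]; congr 1; ring
    have hs : Real.sin (2 * θ) ^ 2 = 1 - Real.cos (2 * θ) ^ 2 := by
      have := Real.sin_sq_add_cos_sq (2 * θ); linarith
    rw [c4, s4]
    field_simp
    linear_combination (4 * B ^ 2) * hs
  have q1 : ∫ θ in (0 : ℝ)..(2 * π), Real.cos (2 * θ) = 0 := by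
    rw [intervalIntegral.integral_comp_mul_left (fun x => Real.cos x) two_ne_zero, integral_cos]
    rw [show (2 : ℝ) * (2 * π) = ((4 : ℕ) : ℝ) * π by push_cast; ring, Real.sin_nat_mul_pi]
    simp
  have q2 : ∫ θ in (0 : ℝ)..(2 * π), Real.sin (2 * θ) = 0 := by
    rw [intervalIntegral.integral_comp_mul_left (fun x => Real.sin x) two_ne_zero, integral_sin]
    rw [show (2 : ℝ) * (2 * π) = ((2 : ℕ) : ℝ) * (2 * π) by push_cast; ring,
      Real.cos_nat_mul_two_pi]
    simp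
  have q3 : ∫ θ in (0 : ℝ)..(2 * π), Real.cos (4 * θ) = 0 := by
    rw [intervalIntegral.integral_comp_mul_left (fun x => Real.cos x) (by norm_num : (4 : ℝ) ≠ 0),
      integral_cos]
    rw [show (4 : ℝ) * (2 * π) = ((8 : ℕ) : ℝ) * π by push_cast; ring, Real.sin_nat_mul_pi]
    simp
  have q4 : ∫ θ in (0 : ℝ)..(2 * π), Real.sin (4 * θ) = 0 := by
    rw [intervalIntegral.integral_comp_mul_left (fun x => Real.sin x) (by norm_num : (4 : ℝ) ≠ 0),
      integral_sin]
    rw [show (4 : ℝ) * (2 * π) = ((4 : ℕ) : ℝ) * (2 * π) by push_cast; ring,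
      Real.cos_nat_mul_two_pi]
    simp
  have hc : ∀ (u : ℝ → ℝ), Continuous u → IntervalIntegrable u volume 0 (2 * π) :=
    fun u hu => hu.intervalIntegrable _ _
  have hcos4 : Continuous fun θ : ℝ => Real.cos (4 * θ) := by fun_prop
  have hsin4 : Continuous fun θ : ℝ => Real.sin (4 * θ) := by fun_prop
  have hval : ∫ θ in (0 : ℝ)..(2 * π),
      (a θ - A0 / (2 * π) - (A * Real.cos (2 * θ) + B * Real.sin (2 * θ)) / π) ^ 2 =
      (∫ θ in (0 : ℝ)..(2 * π), a θ ^ 2) - (A0 / π) * A0 - (2 * A / π) * A - (2 * B / π) * B +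
      (2 * π) * ((A0 / (2 * π)) ^ 2 + (A ^ 2 + B ^ 2) / (2 * π ^ 2)) := by
    simp only [hexp]
    rw [intervalIntegral.integral_add (((hia2.sub (hia.const_mul _)).sub
        ((hi _ hcos).const_mul _)).sub ((hi _ hsin).const_mul _)) (hc _ (by fun_prop)),
      intervalIntegral.integral_sub ((hia2.sub (hia.const_mul _)).sub
        ((hi _ hcos).const_mul _)) ((hi _ hsin).const_mul _),
      intervalIntegral.integral_sub (hia2.sub (hia.const_mul _)) ((hi _ hcos).const_mul _),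
      intervalIntegral.integral_sub hia2 (hia.const_mul _),
      intervalIntegral.integral_const_mul, intervalIntegral.integral_const_mul,
      intervalIntegral.integral_const_mul]
    rw [intervalIntegral.integral_add (hc _ (by fun_prop)) (hc _ (by fun_prop)),
      intervalIntegral.integral_add (hc _ (by fun_prop)) (hc _ (by fun_prop)),
      intervalIntegral.integral_add (hc _ (by fun_prop)) (hc _ (by fun_prop)),
      intervalIntegral.integral_add (hc _ (by fun_prop)) (hc _ (by fun_prop)),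
      intervalIntegral.integral_const_mul, intervalIntegral.integral_const_mul,
      intervalIntegral.integral_const_mul, intervalIntegral.integral_const_mul, q1, q2, q3, q4,
      intervalIntegral.integral_const]
    simp only [smul_eq_mul]
    ring
  rw [hval] at hpos
  have h5 : (∫ θ in (0 : ℝ)..(2 * π), a θ ^ 2) - (A0 / π) * A0 - (2 * A / π) * A - (2 * B / π) * B +
      (2 * π) * ((A0 / (2 * π)) ^ 2 + (A ^ 2 + B ^ 2) / (2 * π ^ 2)) =
      (2 * π * (∫ θ in (0 : ℝ)..(2 * π), a θ ^ 2) - (A0 ^ 2 + 2 * (A ^ 2 + B ^ 2))) / (2 * π) := by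
    field_simp
    ring
  rw [h5] at hpos
  have h6 : 0 < 2 * π := by positivity
  have h7 := mul_nonneg hpos h6.le
  rw [div_mul_cancel₀ _ h6.ne'] at h7
  linarith

end Pool.Agent.L5helper84.BL
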