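import Pool.Agent.L5helper84.BL.Side

/-!
The area identity: the difference of the norms of the Fourier coefficients `k - 1` and `k + 1` of an
invariant function is the area of a polygon whose sides have the directions `k τ i`.
Adapted from `Pool.Agent.N440.LB.Core`.
-/

set_option autoImplicit false

namespace Pool.Agent.L5helper84.BL

open Complex Set MeasureTheory Filter Topology Pool.Agent.W780.PG Pool.Agent.W780.BB
  Pool.Agent.TH103.BL Pool.Agent.N440.LB

open scoped Real ComplexConjugate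

variable {n : ℕ}

theorem cross_eq {x y : ℂ} {s L m : ℝ}
    (h : exp (-(s : ℂ) * I) * (y - x) = -((L * m : ℝ) : ℂ) * I) :
    (conj y * x).im = L * (exp (-(s : ℂ) * I) * x).re * m := by
  have h1 : exp ((s : ℂ) * I) * exp (-(s : ℂ) * I) = 1 := by
    rw [← exp_add]; simp
  have h2 : y - x = exp ((s : ℂ) * I) * (-((L * m : ℝ) : ℂ) * I) := by
    rw [← h, ← mul_assoc, h1, one_mul]
  have h3 : y = x + exp ((s : ℂ) * I) * (-((L * m : ℝ) : ℂ) * I) := by
    rw [← h2]; ring
  have h4 : conj (exp ((s : ℂ) * I)) = exp (-(s : ℂ) * I) := by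
    rw [← exp_conj, map_mul, conj_ofReal, conj_I]; congr 1; ring
  have h5 : conj y * x = (normSq x : ℂ) + ((L * m : ℝ) : ℂ) * I * (exp (-(s : ℂ) * I) * x) := by
    rw [h3, map_add, map_mul, map_mul, h4, map_neg, conj_ofReal, conj_I, normSq_eq_conj_mul_self]
    ring
  rw [h5, add_im, ofReal_im, zero_add]
  rw [show ((L * m : ℝ) : ℂ) * I * (exp (-(s : ℂ) * I) * x) =
    ((L * m : ℝ) : ℂ) * (I * (exp (-(s : ℂ) * I) * x)) by ring, im_ofReal_mul, I_mul_im]
  ring

/-- the area identity for the chord function -/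
theorem ident_gen (hI1 : S_I1) (hDIV : S_DIV) (hGF : S_GF) (hSY : S_SY)
    {p : Fin (n + 3) → ℂ} (hp : IsConvexPolygon p) (hfin : volume (reg p) < ⊤)
    (hne : ∀ i, p i ≠ p (i + 1)) {f : ℂ × ℝ → ℝ} {C : ℝ} {F : ℝ → ℝ → ℝ} (hF : Chord p f C F)
    (k : ℕ) :
    ∫ z in reg p, ∫ θ' in (0 : ℝ)..(2 * π), F θ' (off θ' z) * Dk F k z θ' =
      ∑ i, (conj (Psi F k (p (i + 1))) * Psi F k (p i)).im := by
  have hC : 0 ≤ C := (abs_nonneg _).trans (hF.bdd 0 0)
  have h1 : ∀ θ', ∫ z in reg p, F θ' (off θ' z) * Dk F k z θ' =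
    ∑ i, off θ' (p (i + 1) - p i) *
      ∫ t in (0 : ℝ)..1, F θ' (off θ' (pt p i t)) * Ak F k (pt p i t) θ' :=
    fun θ' => hI1 hDIV hGF n p hp F C hF.meas hF.bdd k θ'
  have h2 : ∀ i, ∫ θ' in (0 : ℝ)..(2 * π), off θ' (p (i + 1) - p i) *
      ∫ t in (0 : ℝ)..1, F θ' (off θ' (pt p i t)) * Ak F k (pt p i t) θ' =
      (conj (Psi F k (p (i + 1))) * Psi F k (p i)).im := by
    intro i
    obtain ⟨q1, q2⟩ := side_gen hGF hSY p i F C hF.meas hF.bdd hF.per (hF.refl i) k
    rw [q1]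
    exact (cross_eq q2).symm
  have hGm := (hGF F C hF.meas hF.bdd).1
  have hGb := (hGF F C hF.meas hF.bdd).2.1
  have hpt : ∀ i, Continuous (pt p i) := by
    intro i; unfold pt; fun_prop
  -- measurability of the sides
  have hAm : ∀ i, Measurable (fun x : ℝ × ℝ => F x.1 (off x.1 (pt p i x.2)) * Ak F k (pt p i x.2) x.1) := by
    intro i
    have e1 : Measurable (fun x : ℝ × ℝ => F x.1 (off x.1 (pt p i x.2))) :=
      chord_meas' hF.meas ((hpt i).measurable.comp measurable_snd) measurable_fst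
    refine e1.mul ?_
    unfold Ak
    simp only [intervalIntegral.integral_of_le (by positivity : (0:ℝ) ≤ 2 * π)]
    have : Measurable (fun y : (ℝ × ℝ) × ℝ => Real.sin (k * (y.2 - y.1.1)) * G F (pt p i y.1.2) y.2) := by
      have e2 : Measurable (fun y : (ℝ × ℝ) × ℝ => Real.sin (k * (y.2 - y.1.1))) := by
        have : Continuous (fun y : (ℝ × ℝ) × ℝ => Real.sin (k * (y.2 - y.1.1))) := by fun_prop
        exact this.measurable
      have e3 : Measurable (fun y : (ℝ × ℝ) × ℝ => (pt p i y.1.2, y.2)) :=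
        ((hpt i).comp (continuous_snd.comp continuous_fst)).measurable.prodMk measurable_snd
      have e4 : Measurable (fun y : (ℝ × ℝ) × ℝ => G F (pt p i y.1.2) y.2) :=
        Measurable.comp (g := fun x : ℂ × ℝ => G F x.1 x.2)
          (f := fun y : (ℝ × ℝ) × ℝ => (pt p i y.1.2, y.2)) hGm e3
      exact e2.mul e4
    exact (this.stronglyMeasurable.integral_prod_right (ν := volume.restrict (Ioc 0 (2 * π)))).measurable
  have hAb : ∀ i, ∃ B : ℝ, 0 ≤ B ∧ ∀ t ∈ Icc (0:ℝ) 1, ∀ θ', |F θ' (off θ' (pt p i t)) * Ak F k (pt p i t) θ'| ≤ B := by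
    intro i
    obtain ⟨R, hR⟩ := isCompact_Icc.exists_bound_of_continuousOn (s := Icc (0:ℝ) 1) (f := pt p i)
      (hpt i).continuousOn
    have hR0 : 0 ≤ R := (norm_nonneg _).trans (hR 0 (by simp))
    refine ⟨C * (C * R * (2 * π)), by positivity, fun t ht θ' => ?_⟩
    rw [abs_mul]
    refine mul_le_mul (hF.bdd _ _) ?_ (abs_nonneg _) hC
    unfold Ak
    have := intervalIntegral.norm_integral_le_of_norm_le_const (a := 0) (b := 2 * π) (C := C * R)
      (f := fun θ => Real.sin (k * (θ - θ')) * G F (pt p i t) θ) ?_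
    · rw [Real.norm_eq_abs] at this
      refine this.trans ?_
      rw [sub_zero, abs_of_nonneg (by positivity)]
    · intro θ _
      rw [Real.norm_eq_abs, abs_mul]
      have h1 := Real.abs_sin_le_one (k * (θ - θ'))
      have h3 := hGb (pt p i t) θ
      have h4 := hR t ht
      have h5 := abs_nonneg (Real.sin (k * (θ - θ')))
      calc _ ≤ 1 * (C * ‖pt p i t‖) := by gcongr
        _ ≤ 1 * (C * R) := by gcongr
        _ = _ := by ring
  have h3 : ∫ θ' in (0 : ℝ)..(2 * π), ∫ z in reg p, F θ' (off θ' z) * Dk F k z θ' =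
      ∑ i, (conj (Psi F k (p (i + 1))) * Psi F k (p i)).im := by
    simp only [h1]
    rw [intervalIntegral.integral_finsetSum]
    · simp [h2]
    · intro i _
      obtain ⟨B, hB0, hB⟩ := hAb i
      have hoffc : Continuous (fun θ' : ℝ => off θ' (p (i + 1) - p i)) :=
        off_cont.comp (continuous_id.prodMk continuous_const)
      refine IntervalIntegrable.continuousOn_mul (g := fun θ' : ℝ => off θ' (p (i + 1) - p i)) ?_ hoffc.continuousOn
      rw [intervalIntegrable_iff]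
      have hm : Measurable (fun θ' : ℝ => ∫ t in (0 : ℝ)..1, F θ' (off θ' (pt p i t)) * Ak F k (pt p i t) θ') := by
        simp only [intervalIntegral.integral_of_le (zero_le_one : (0:ℝ) ≤ 1)]
        exact ((hAm i).stronglyMeasurable.integral_prod_right (ν := volume.restrict (Ioc 0 1))).measurable
      refine Measure.integrableOn_of_bounded (M := B)
        (by rw [uIoc_of_le (by positivity)]; exact measure_Ioc_lt_top.ne) hm.aestronglyMeasurable ?_
      refine ae_of_all _ fun θ' => ?_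
      have := intervalIntegral.norm_integral_le_of_norm_le_const (a := 0) (b := 1) (C := B)
        (f := fun t => F θ' (off θ' (pt p i t)) * Ak F k (pt p i t) θ') ?_
      · simpa using this
      · intro t ht
        rw [uIoc_of_le zero_le_one] at ht
        exact hB t ⟨ht.1.le, ht.2⟩ θ'
  refine Eq.trans ?_ h3
  simp only [intervalIntegral.integral_of_le (by positivity : (0:ℝ) ≤ 2 * π)]
  have : IsFiniteMeasure (volume.restrict (reg p)) := ⟨by simpa using hfin⟩
  refine integral_integral_swap ?_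
  have hm : Measurable (Function.uncurry fun (z : ℂ) (θ' : ℝ) => F θ' (off θ' z) * Dk F k z θ') :=
    (chord_meas hF.meas).mul (Dk_meas hF.meas k)
  refine Integrable.of_bound (C := C * (C * (2 * π))) hm.aestronglyMeasurable (ae_of_all _ fun x => ?_)
  rw [Real.norm_eq_abs]
  simp only [Function.uncurry]
  rw [abs_mul]
  exact mul_le_mul (hF.bdd _ _) (Dk_bdd hF.bdd k _ _) (abs_nonneg _) hC


/-- the energy of the Fourier coefficient number `m` -/
noncomputable def En (p : Fin (n + 3) → ℂ) (f : ℂ × ℝ → ℝ) (m : ℕ) : ℝ :=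
  ∫ z in reg p, ‖∫ θ in (0 : ℝ)..(2 * π), (f (z, θ) : ℂ) * exp ((m * θ : ℝ) * I)‖ ^ 2

/-- the area identity -/
theorem area_identity (hI1 : S_I1) (hDIV : S_DIV) (hGF : S_GF) (hSY : S_SY) (hFA : S_FA)
    {p : Fin (n + 3) → ℂ} (hp : IsConvexPolygon p) (hfin : volume (reg p) < ⊤)
    (hmeas : MeasurableSet (reg p))
    (hne : ∀ i, p i ≠ p (i + 1)) {f : ℂ × ℝ → ℝ} (hfm : Measurable f)
    (hfp : ∀ z θ, f (z, θ + 2 * π) = f (z, θ))
    {C₀ : ℝ} (hfb : ∀ x, |f x| ≤ C₀) {C : ℝ} {F : ℝ → ℝ → ℝ} (hF : Chord p f C F)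
    {k : ℕ} (hk : 1 ≤ k) :
    (En p f (k + 1) - En p f (k - 1)) / 2 =
      ∑ i, (conj (Psi F k (p (i + 1))) * Psi F k (p i)).im := by
  have h1 := ident_gen hI1 hDIV hGF hSY hp hfin hne hF k
  have hpi : (0:ℝ) ≤ 2 * π := by positivity
  have h2 : ∀ z ∈ reg p, ∫ θ' in (0 : ℝ)..(2 * π), F θ' (off θ' z) * Dk F k z θ' =
      (‖∫ θ in (0 : ℝ)..(2 * π), (f (z, θ) : ℂ) * exp (((k + 1 : ℕ) * θ : ℝ) * I)‖ ^ 2 -
       ‖∫ θ in (0 : ℝ)..(2 * π), (f (z, θ) : ℂ) * exp (((k - 1 : ℕ) * θ : ℝ) * I)‖ ^ 2) / 2 := by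
    intro z hz
    have h3 := hFA (fun θ => f (z, θ)) C₀ k (hfm.comp measurable_prodMk_left) (fun θ => hfb (z, θ)) hk
    rw [← h3]
    refine intervalIntegral.integral_congr fun θ' _ => ?_
    simp only [Dk, ← hF.val _ z hz]
  have hint : ∀ m : ℕ, IntegrableOn (fun z => ‖∫ θ in (0 : ℝ)..(2 * π), (f (z, θ) : ℂ) * exp ((m * θ : ℝ) * I)‖ ^ 2)
      (reg p) := by
    intro m
    have hm : Measurable (fun x : ℂ × ℝ => (f (x.1, x.2) : ℂ) * exp ((m * x.2 : ℝ) * I)) := by
      have e1 : Measurable (fun x : ℂ × ℝ => (f x : ℂ)) := measurable_ofReal.comp hfm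
      have e2 : Continuous (fun x : ℂ × ℝ => exp ((m * x.2 : ℝ) * I)) := by fun_prop
      exact e1.mul e2.measurable
    have hm2 : Measurable (fun z : ℂ => ∫ θ in (0 : ℝ)..(2 * π), (f (z, θ) : ℂ) * exp ((m * θ : ℝ) * I)) := by
      simp only [intervalIntegral.integral_of_le hpi]
      exact (hm.stronglyMeasurable.integral_prod_right (ν := volume.restrict (Ioc 0 (2 * π)))).measurable
    refine Measure.integrableOn_of_bounded (M := (C₀ * (2 * π)) ^ 2) hfin.ne
      ((hm2.norm.pow_const 2).aestronglyMeasurable) (ae_of_all _ fun z => ?_)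
    rw [norm_pow, norm_norm]
    refine pow_le_pow_left₀ (norm_nonneg _) ?_ 2
    have := intervalIntegral.norm_integral_le_of_norm_le_const (a := 0) (b := 2 * π) (C := C₀)
      (f := fun θ => (f (z, θ) : ℂ) * exp ((m * θ : ℝ) * I)) ?_
    · refine this.trans ?_
      rw [sub_zero, abs_of_nonneg hpi]
    · intro θ _
      rw [norm_mul, norm_exp_ofReal_mul_I, mul_one, norm_real, Real.norm_eq_abs]
      exact hfb _
  have h4 : ∫ z in reg p, (‖∫ θ in (0 : ℝ)..(2 * π), (f (z, θ) : ℂ) * exp (((k + 1 : ℕ) * θ : ℝ) * I)‖ ^ 2 -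
       ‖∫ θ in (0 : ℝ)..(2 * π), (f (z, θ) : ℂ) * exp (((k - 1 : ℕ) * θ : ℝ) * I)‖ ^ 2) / 2 =
      ∑ i, (conj (Psi F k (p (i + 1))) * Psi F k (p i)).im := by
    exact (setIntegral_congr_fun hmeas h2).symm.trans h1
  rw [integral_div, integral_sub (hint (k + 1)) (hint (k - 1))] at h4
  exact h4

end Pool.Agent.L5helper84.BL
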