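import Pool.Agent.N440.LB.All

/-!
The Lorentzian property of the area of polygons with given directions of the sides (Minkowski's
inequality for convex polygons with parallel sides).
-/

set_option autoImplicit false

namespace Pool.Agent.L5helper84.BL

open Complex Set Pool.Agent.W780.PG

open scoped Real ComplexConjugate

variable {n : ℕ}

/-- a chain which starts on the base line and turns by less than a half turn -/
theorem arc_aux (a b c s h : ℕ → ℝ) (J : ℕ) (ha : ∀ m, m ≤ J → a (m + 1) = a m + h m * c m)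
    (hb : ∀ m, m ≤ J → b (m + 1) = b m + h m * s m) (hs : ∀ m, m ≤ J → 0 < s m)
    (hq : ∀ m, m < J → c (m + 1) * s m ≤ c m * s (m + 1)) (b0 : b 0 = 0) :
    ∑ m ∈ Finset.range (J + 1), (a m * b (m + 1) - b m * a (m + 1)) ≤
      b (J + 1) * (a (J + 1) - b (J + 1) * (c J / s J)) := by
  induction J with
  | zero =>
    rw [Finset.sum_range_one, ha 0 le_rfl, hb 0 le_rfl, b0]
    have := hs 0 le_rfl
    apply le_of_eq
    field_simp
    ring
  | succ J ih =>
    rw [Finset.sum_range_succ]
    have h1 := ih (fun m hm => ha m (by omega)) (fun m hm => hb m (by omega))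
      (fun m hm => hs m (by omega)) (fun m hm => hq m (by omega))
    have s1 := hs J (by omega)
    have s2 := hs (J + 1) le_rfl
    have q1 := hq J (by omega)
    have q2 : c (J + 1) / s (J + 1) ≤ c J / s J := by
      rw [div_le_div_iff₀ s2 s1]; exact q1
    rw [ha (J + 1) le_rfl, hb (J + 1) le_rfl]
    set A := a (J + 1)
    set B := b (J + 1)
    set H := h (J + 1)
    set q := c J / s J
    set q' := c (J + 1) / s (J + 1) with hq'
    have hc : c (J + 1) = q' * s (J + 1) := by rw [hq']; field_simp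
    rw [hc]
    have h2 : B ^ 2 * q' ≤ B ^ 2 * q := mul_le_mul_of_nonneg_left q2 (sq_nonneg _)
    nlinarith

theorem arc (a b c s h : ℕ → ℝ) (J : ℕ) (ha : ∀ m, m < J → a (m + 1) = a m + h m * c m)
    (hb : ∀ m, m < J → b (m + 1) = b m + h m * s m) (hs : ∀ m, m < J → 0 < s m)
    (hq : ∀ m, m + 1 < J → c (m + 1) * s m ≤ c m * s (m + 1)) (b0 : b 0 = 0) (bJ : b J = 0) :
    ∑ m ∈ Finset.range J, (a m * b (m + 1) - b m * a (m + 1)) ≤ 0 := by
  rcases Nat.eq_zero_or_pos J with h0 | h0
  · subst h0; simp
  · obtain ⟨K, rfl⟩ : ∃ K, J = K + 1 := ⟨J - 1, by omega⟩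
    have := arc_aux a b c s h K (fun m hm => ha m (by omega)) (fun m hm => hb m (by omega))
      (fun m hm => hs m (by omega)) (fun m hm => hq m (by omega)) b0
    rw [bJ] at this
    simpa using this

/-- cyclic index -/
def idx (n m : ℕ) : Fin (n + 3) := ⟨m % (n + 3), Nat.mod_lt _ (by omega)⟩

theorem idx_succ (n m : ℕ) : idx n (m + 1) = idx n m + 1 := by
  ext
  simp only [idx, Fin.val_add]
  have : ((1 : Fin (n + 3)) : ℕ) = 1 := by simp
  rw [this]
  simp [Nat.add_mod]

theorem idx_val (i : Fin (n + 3)) : idx n i.val = i := by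
  ext
  exact Nat.mod_eq_of_lt i.isLt

theorem idx_ne {m l : ℕ} (hm : m < n + 3) (hl : l < n + 3) (h : m ≠ l) : idx n m ≠ idx n l := by
  intro h1
  have := congrArg Fin.val h1
  simp only [idx] at this
  rw [Nat.mod_eq_of_lt hm, Nat.mod_eq_of_lt hl] at this
  exact h this

theorem sum_idx (G : Fin (n + 3) → ℝ) : ∑ i, G i = ∑ m ∈ Finset.range (n + 3), G (idx n m) := by
  rw [Finset.sum_range]
  refine Finset.sum_congr rfl fun i _ => ?_
  rw [idx_val]

theorem idx_last : idx n (n + 3) = idx n 0 := by
  ext; simp [idx]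

-- the chain case: the vertex `j + 1` is at the origin and the side `0` passes through it -/
theorem vert_ne0 {p : Fin (n + 3) → ℂ} (hp : IsConvexPolygon p) : p (idx n 1) ≠ p (idx n 0) := by
  have h := Pool.Agent.N440.LB.vert_ne Pool.Agent.N440.LB.parts.basic hp (idx n 0)
  rw [← idx_succ] at h
  exact h.symm

theorem lor_zero {p : Fin (n + 3) → ℂ} (hp : IsConvexPolygon p) (j : ℕ) (hj : 1 ≤ j)
    (hjn : j + 1 < n + 3)
    (hs : ∀ m, 1 ≤ m → m ≤ j → 0 < (conj (p (idx n 1) - p (idx n 0)) *
      (p (idx n (m + 1)) - p (idx n m))).im)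
    (hs1 : (conj (p (idx n 1) - p (idx n 0)) * (p (idx n (j + 2)) - p (idx n (j + 1)))).im ≤ 0)
    (hs2 : ∀ m, j + 2 ≤ m → m < n + 3 → (conj (p (idx n 1) - p (idx n 0)) *
      (p (idx n (m + 1)) - p (idx n m))).im < 0)
    (h : Fin (n + 3) → ℝ) (X : Fin (n + 3) → ℂ)
    (hX : ∀ i, X (i + 1) - X i = h i * (p (i + 1) - p i))
    (hXj : X (idx n (j + 1)) = 0)
    (hX0 : (conj (p (idx n 1) - p (idx n 0)) * X (idx n 1)).im = 0) :
    ∑ i, (conj (X i) * X (i + 1)).im ≤ 0 := by
  set v0 : ℂ := p (idx n 1) - p (idx n 0) with hv0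
  set a : ℕ → ℝ := fun m => (conj v0 * X (idx n m)).re with ha
  set b : ℕ → ℝ := fun m => (conj v0 * X (idx n m)).im with hb
  set c : ℕ → ℝ := fun m => (conj v0 * (p (idx n (m + 1)) - p (idx n m))).re with hc
  set s : ℕ → ℝ := fun m => (conj v0 * (p (idx n (m + 1)) - p (idx n m))).im with hsd
  set H : ℕ → ℝ := fun m => h (idx n m) with hH
  have hstep : ∀ m, X (idx n (m + 1)) = X (idx n m) + H m * (p (idx n (m + 1)) - p (idx n m)) := by
    intro m
    have := hX (idx n m)
    rw [← idx_succ] at this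
    rw [← this]; ring
  have hac : ∀ m, a (m + 1) = a m + H m * c m := by
    intro m
    simp only [ha, hc]
    rw [hstep m, mul_add, add_re]
    rw [show conj v0 * ((H m : ℂ) * (p (idx n (m + 1)) - p (idx n m))) =
      (H m : ℂ) * (conj v0 * (p (idx n (m + 1)) - p (idx n m))) by ring, re_ofReal_mul]
  have hbc : ∀ m, b (m + 1) = b m + H m * s m := by
    intro m
    simp only [hb, hsd]
    rw [hstep m, mul_add, add_im]
    rw [show conj v0 * ((H m : ℂ) * (p (idx n (m + 1)) - p (idx n m))) =
      (H m : ℂ) * (conj v0 * (p (idx n (m + 1)) - p (idx n m))) by ring, im_ofReal_mul]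
  have hterm : ∀ m, normSq v0 * (conj (X (idx n m)) * X (idx n (m + 1))).im =
      a m * b (m + 1) - b m * a (m + 1) := by
    intro m
    simp only [ha, hb, normSq_apply, mul_re, mul_im, conj_re, conj_im]
    ring
  have hcross : ∀ m, c (m + 1) * s m ≤ c m * s (m + 1) := by
    intro m
    have h1 : 0 ≤ (conj (p (idx n (m + 1)) - p (idx n m)) *
        (p (idx n (m + 2)) - p (idx n (m + 1)))).im := by
      have h2 := hp.pos (idx n m) (idx n (m + 2)) ?_ ?_
      · unfold lft at h2
        rw [← idx_succ] at h2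
        have h3 : conj (p (idx n (m + 1)) - p (idx n m)) * (p (idx n (m + 2)) - p (idx n m)) =
          conj (p (idx n (m + 1)) - p (idx n m)) * (p (idx n (m + 2)) - p (idx n (m + 1))) +
          (normSq (p (idx n (m + 1)) - p (idx n m)) : ℂ) := by
          rw [normSq_eq_conj_mul_self]; ring
        rw [h3, add_im, ofReal_im, add_zero] at h2
        exact h2.le
      · rw [show m + 2 = (m + 1) + 1 by ring, idx_succ, idx_succ]
        exact Pool.Agent.W174.PG.i2 _
      · rw [show m + 2 = (m + 1) + 1 by ring, idx_succ]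
        rw [← idx_succ n m]
        exact Pool.Agent.W174.PG.i1 _
    have h2 : c m * s (m + 1) - c (m + 1) * s m = normSq v0 *
        (conj (p (idx n (m + 1)) - p (idx n m)) * (p (idx n (m + 2)) - p (idx n (m + 1)))).im := by
      simp only [hc, hsd, normSq_apply, mul_re, mul_im, conj_re, conj_im, sub_re, sub_im]
      ring
    have h3 : 0 ≤ normSq v0 * (conj (p (idx n (m + 1)) - p (idx n m)) *
        (p (idx n (m + 2)) - p (idx n (m + 1)))).im := mul_nonneg (normSq_nonneg _) h1
    linarith
  have hv : 0 < normSq v0 := by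
    rw [normSq_pos, hv0, sub_ne_zero]
    intro h1
    have := vert_ne0 hp
    exact this h1
  have b1 : b 1 = 0 := hX0
  have b0 : b 0 = 0 := by
    have := hbc 0
    have h1 : s 0 = 0 := by
      simp only [hsd]
      rw [← hv0, ← normSq_eq_conj_mul_self, ofReal_im]
    rw [h1, mul_zero, add_zero] at this
    rw [← this]; exact b1
  have aj : a (j + 1) = 0 := by simp only [ha, hXj]; simp
  have bj : b (j + 1) = 0 := by simp only [hb, hXj]; simp
  -- the total
  have htot : normSq v0 * ∑ i, (conj (X i) * X (i + 1)).im =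
      ∑ m ∈ Finset.range (n + 3), (a m * b (m + 1) - b m * a (m + 1)) := by
    rw [sum_idx, Finset.mul_sum]
    refine Finset.sum_congr rfl fun m _ => ?_
    rw [← idx_succ, hterm]
  -- the forward chain
  have hfw : ∑ m ∈ Finset.range j, (a (m + 1) * b (m + 2) - b (m + 1) * a (m + 2)) ≤ 0 :=
    arc (fun m => a (m + 1)) (fun m => b (m + 1)) (fun m => c (m + 1)) (fun m => s (m + 1))
      (fun m => H (m + 1)) j (fun m _ => hac _) (fun m _ => hbc _)
      (fun m hm => hs (m + 1) (by omega) (by omega)) (fun m _ => hcross _) b1 bj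
  -- the backward chain
  have hbw : ∀ J : ℕ, J ≤ n + 3 → (∀ r, r < J → s (n + 2 - r) < 0) → b (n + 3 - J) = 0 →
      ∑ r ∈ Finset.range J, (a (n + 2 - r) * b (n + 3 - r) - b (n + 2 - r) * a (n + 3 - r)) ≤ 0 := by
    intro J hJ hneg hbJ
    have h1 := arc (fun r => a (n + 3 - r)) (fun r => - b (n + 3 - r)) (fun r => c (n + 2 - r))
      (fun r => - s (n + 2 - r)) (fun r => - H (n + 2 - r)) J (fun r hr => ?_) (fun r hr => ?_)
      (fun r hr => by have := hneg r hr; linarith) (fun r hr => ?_) (by
        simp only [Nat.sub_zero]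
        have : b (n + 3) = b 0 := by simp only [hb, idx_last]
        rw [this, b0, neg_zero]) (by simp only [hbJ, neg_zero])
    · refine le_trans (le_of_eq (Finset.sum_congr rfl fun r hr => ?_)) h1
      have hr' := Finset.mem_range.1 hr
      have e1 : n + 3 - (r + 1) = n + 2 - r := by omega
      simp only [e1]
      ring
    · have e1 : n + 3 - (r + 1) = n + 2 - r := by omega
      have e2 : n + 3 - r = (n + 2 - r) + 1 := by omega
      simp only [e1, e2, hac]
      ring
    · have e1 : n + 3 - (r + 1) = n + 2 - r := by omega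
      have e2 : n + 3 - r = (n + 2 - r) + 1 := by omega
      simp only [e1, e2, hbc]
      ring
    · have e1 : n + 2 - r = (n + 2 - (r + 1)) + 1 := by omega
      simp only [e1]
      have := hcross (n + 2 - (r + 1))
      linarith
  -- assemble
  have hsplit : ∑ m ∈ Finset.range (n + 3), (a m * b (m + 1) - b m * a (m + 1)) =
      (a 0 * b 1 - b 0 * a 1) +
      ∑ m ∈ Finset.range j, (a (m + 1) * b (m + 2) - b (m + 1) * a (m + 2)) +
      ∑ m ∈ Finset.Ico (j + 1) (n + 3), (a m * b (m + 1) - b m * a (m + 1)) := by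
    rw [← Finset.sum_range_add_sum_Ico _ (show j + 1 ≤ n + 3 by omega), Finset.sum_range_succ']
    simp only [zero_add]
    ring
  have hre : ∀ J : ℕ, J ≤ n + 3 →
      ∑ m ∈ Finset.Ico (n + 3 - J) (n + 3), (a m * b (m + 1) - b m * a (m + 1)) =
      ∑ r ∈ Finset.range J, (a (n + 2 - r) * b (n + 3 - r) - b (n + 2 - r) * a (n + 3 - r)) := by
    intro J
    induction J with
    | zero => intro _; simp
    | succ J ih =>
      intro hJ
      have h1 : n + 3 - J = (n + 3 - (J + 1)) + 1 := by omega
      rw [Finset.sum_range_succ, ← ih (by omega),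
        Finset.sum_eq_sum_Ico_succ_bot (show n + 3 - (J + 1) < n + 3 by omega), ← h1]
      have h2 : n + 3 - (J + 1) = n + 2 - J := by omega
      rw [h2]
      ring
  have hlast : ∑ m ∈ Finset.Ico (j + 1) (n + 3), (a m * b (m + 1) - b m * a (m + 1)) ≤ 0 := by
    rcases hs1.lt_or_eq with hlt | heq
    · have h1 := hre (n + 2 - j) (by omega)
      have e1 : n + 3 - (n + 2 - j) = j + 1 := by omega
      rw [e1] at h1
      rw [h1]
      refine hbw _ (by omega) (fun r hr => ?_) (by rw [e1]; exact bj)
      rcases Nat.lt_or_ge (n + 2 - r) (j + 2) with h2 | h2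
      · have : n + 2 - r = j + 1 := by omega
        rw [this]; exact hlt
      · exact hs2 _ h2 (by omega)
    · have hb2 : b (j + 2) = 0 := by
        have := hbc (j + 1)
        have h1 : s (j + 1) = 0 := heq
        rw [h1, mul_zero, add_zero, bj] at this
        exact this
      rw [Finset.sum_eq_sum_Ico_succ_bot (show j + 1 < n + 3 by omega)]
      have h0 : a (j + 1) * b (j + 1 + 1) - b (j + 1) * a (j + 1 + 1) = 0 := by rw [aj, bj]; ring
      rw [h0, zero_add]
      have h1 := hre (n + 1 - j) (by omega)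
      have e1 : n + 3 - (n + 1 - j) = j + 1 + 1 := by omega
      rw [e1] at h1
      rw [h1]
      refine hbw _ (by omega) (fun r hr => ?_) (by rw [e1]; exact hb2)
      exact hs2 _ (by omega) (by omega)
  have hfin : normSq v0 * ∑ i, (conj (X i) * X (i + 1)).im ≤ 0 := by
    rw [htot, hsplit, b0, b1]
    linarith
  by_contra hcon
  push Not at hcon
  have := mul_pos hv hcon
  linarith

end Pool.Agent.L5helper84.BL
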