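import Pool.Agent.L5helper84.BL.Lor
import Pool.Agent.L5helper84.BL.Base

/-!
Minkowski's inequality for polygons with parallel sides: if the mixed area vanishes then the area is
not positive.
-/

set_option autoImplicit false

namespace Pool.Agent.L5helper84.BL

open Complex Set Pool.Agent.W780.PG

open scoped Real ComplexConjugate

variable {n : ℕ}

/-- the heights over the side `0` first increase and then decrease -/
theorem unimodal {p : Fin (n + 3) → ℂ} (hp : IsConvexPolygon p) :
    ∃ j : ℕ, 1 ≤ j ∧ j + 1 < n + 3 ∧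
    (∀ m, 1 ≤ m → m ≤ j → 0 < (conj (p (idx n 1) - p (idx n 0)) *
      (p (idx n (m + 1)) - p (idx n m))).im) ∧
    (conj (p (idx n 1) - p (idx n 0)) * (p (idx n (j + 2)) - p (idx n (j + 1)))).im ≤ 0 ∧
    (∀ m, j + 2 ≤ m → m < n + 3 → (conj (p (idx n 1) - p (idx n 0)) *
      (p (idx n (m + 1)) - p (idx n m))).im < 0) := by
  classical
  set v0 : ℂ := p (idx n 1) - p (idx n 0) with hv0
  set s : ℕ → ℝ := fun m => (conj v0 * (p (idx n (m + 1)) - p (idx n m))).im with hs
  set η : ℕ → ℝ := fun m => (conj v0 * (p (idx n m) - p (idx n 0))).im with hη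
  have hse : ∀ m, s m = η (m + 1) - η m := by
    intro m
    simp only [hs, hη, mul_im, sub_re, sub_im]
    ring
  have e01 : idx n 1 = idx n 0 + 1 := idx_succ n 0
  have hηpos : ∀ m, 2 ≤ m → m < n + 3 → 0 < η m := by
    intro m h1 h2
    have h := hp.pos (idx n 0) (idx n m) (idx_ne h2 (by omega) (by omega))
      (by rw [← e01]; exact idx_ne h2 (by omega) (by omega))
    rw [← e01] at h
    exact h
  have hη0 : η 0 = 0 := by simp [hη]
  have hηN : η (n + 3) = 0 := by simp [hη, idx_last]
  have hη1 : η 1 = 0 := by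
    simp only [hη]
    rw [← hv0, ← normSq_eq_conj_mul_self, ofReal_im]
  -- the first index with nonpositive increment
  have hex : ∃ m, 1 ≤ m ∧ s m ≤ 0 := by
    refine ⟨n + 2, by omega, ?_⟩
    rw [hse, show n + 2 + 1 = n + 3 by ring, hηN]
    have := hηpos (n + 2) (by omega) (by omega)
    linarith
  set k := Nat.find hex with hk
  obtain ⟨hk1, hk2⟩ := Nat.find_spec hex
  have hk3 : k ≤ n + 2 := Nat.find_min' hex ⟨by omega, by
    rw [hse, show n + 2 + 1 = n + 3 by ring, hηN]
    have := hηpos (n + 2) (by omega) (by omega)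
    linarith⟩
  have hs1 : 0 < s 1 := by
    rw [hse, hη1]
    have := hηpos 2 le_rfl (by omega)
    simpa using this
  have hk4 : 2 ≤ k := by
    rcases Nat.lt_or_ge k 2 with h | h
    · have h1 : k = 1 := by omega
      have h2 : s k ≤ 0 := hk2
      rw [h1] at h2
      linarith
    · exact h
  -- propagation
  have hprop : ∀ m, 1 ≤ m → m + 2 ≤ n + 3 → s m ≤ 0 → s (m + 1) < 0 := by
    intro m h1 h2 h3
    by_contra hcon
    push Not at hcon
    set A : ℂ := p (idx n (m + 1)) - p (idx n m) with hA
    set B : ℂ := p (idx n (m + 2)) - p (idx n (m + 1)) with hB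
    set w : ℂ := p (idx n 0) - p (idx n (m + 1)) with hw
    have hD : 0 < (conj A * B).im := by
      have h4 := hp.pos (idx n m) (idx n (m + 2)) ?_ ?_
      · unfold lft at h4
        rw [← idx_succ] at h4
        have h5 : conj (p (idx n (m + 1)) - p (idx n m)) * (p (idx n (m + 2)) - p (idx n m)) =
          conj A * B + (normSq A : ℂ) := by
          rw [hA, hB, normSq_eq_conj_mul_self]; ring
        rw [h5, add_im, ofReal_im, add_zero] at h4
        exact h4
      · rw [show m + 2 = (m + 1) + 1 by ring, idx_succ, idx_succ]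
        exact Pool.Agent.W174.PG.i2 _
      · rw [show m + 2 = (m + 1) + 1 by ring, idx_succ]
        rw [← idx_succ n m]
        exact Pool.Agent.W174.PG.i1 _
    have hAw : 0 < (conj A * w).im := by
      have h4 := hp.pos (idx n m) (idx n 0) (idx_ne (by omega) (by omega) (by omega))
        (by rw [← idx_succ]; exact idx_ne (by omega) (by omega) (by omega))
      unfold lft at h4
      rw [← idx_succ] at h4
      have h5 : conj (p (idx n (m + 1)) - p (idx n m)) * (p (idx n 0) - p (idx n m)) =
        conj A * w + (normSq A : ℂ) := by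
        rw [hA, hw, normSq_eq_conj_mul_self]; ring
      rw [h5, add_im, ofReal_im, add_zero] at h4
      exact h4
    have hBw : 0 ≤ (conj B * w).im := by
      rcases Nat.lt_or_ge (m + 2) (n + 3) with h6 | h6
      · have h4 := hp.pos (idx n (m + 1)) (idx n 0) (idx_ne (by omega) (by omega) (by omega))
          (by rw [← idx_succ]; exact idx_ne (by omega) (by omega) (by omega))
        unfold lft at h4
        rw [← idx_succ] at h4
        exact h4.le
      · have h7 : m + 2 = n + 3 := by omega
        have h8 : B = w := by rw [hB, hw, h7, idx_last]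
        rw [h8, ← normSq_eq_conj_mul_self, ofReal_im]
    have hheight : (conj v0 * w).im < 0 := by
      have h6 : (conj v0 * w).im = - η (m + 1) := by
        simp only [hη, hw, mul_im, sub_re, sub_im]
        ring
      rw [h6]
      rcases Nat.lt_or_ge (m + 1) (n + 3) with h7 | h7
      · have := hηpos (m + 1) (by omega) h7
        linarith
      · omega
    have hpl : (conj A * B).im * (conj v0 * w).im =
        - (conj B * w).im * (conj v0 * A).im + (conj A * w).im * (conj v0 * B).im := by
      simp only [mul_im, conj_re, conj_im]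
      ring
    have h8 : (conj v0 * A).im ≤ 0 := h3
    have h9 : 0 ≤ (conj v0 * B).im := hcon
    have h10 : (conj A * B).im * (conj v0 * w).im < 0 := mul_neg_of_pos_of_neg hD hheight
    have h11 : 0 ≤ - (conj B * w).im * (conj v0 * A).im := by
      nlinarith
    have h12 : 0 ≤ (conj A * w).im * (conj v0 * B).im := mul_nonneg hAw.le h9
    linarith
  refine ⟨k - 1, by omega, by omega, fun m h1 h2 => ?_, ?_, ?_⟩
  · have := Nat.find_min hex (show m < k by omega)
    push Not at this
    exact this h1
  · have e1 : k - 1 + 1 = k := by omega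
    have e2 : k - 1 + 2 = k + 1 := by omega
    rw [e1, e2]
    exact hk2
  · have key : ∀ l, k + 1 + l < n + 3 → s (k + 1 + l) < 0 := by
      intro l
      induction l with
      | zero => intro h; exact hprop k (by omega) (by omega) hk2
      | succ l ih =>
        intro h
        exact hprop (k + 1 + l) (by omega) (by omega) (ih (by omega)).le
    intro m h1 h2
    have := key (m - (k + 1)) (by omega)
    rw [show k + 1 + (m - (k + 1)) = m by omega] at this
    exact this

/-- the cyclic area form (twice the area) -/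
noncomputable def ar (X : Fin (n + 3) → ℂ) : ℝ := ∑ i, (conj (X i) * X (i + 1)).im

theorem sum_shift (G : Fin (n + 3) → ℂ) : ∑ i, G (i + 1) = ∑ i, G i :=
  Equiv.sum_comp (Equiv.addRight (1 : Fin (n + 3))) G

theorem sum_shift' (G : Fin (n + 3) → ℝ) : ∑ i, G (i + 1) = ∑ i, G i :=
  Equiv.sum_comp (Equiv.addRight (1 : Fin (n + 3))) G

/-- the area form of a sum of a polygon, a multiple of a parallel polygon and a translation -/
theorem ar_add {p X : Fin (n + 3) → ℂ} {h : Fin (n + 3) → ℝ}
    (hX : ∀ i, X (i + 1) - X i = h i * (p (i + 1) - p i)) (β : ℝ) (w : ℂ)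
    (hV : ∑ i, h i * (conj (p i) * (p (i + 1) - p i)).im = 0) :
    ar (fun i => X i + β * p i + w) = ar X + β ^ 2 * ar p := by
  have h1 : ∑ i, (conj (p i) * (X (i + 1) - X i)).im = 0 := by
    rw [← hV]
    refine Finset.sum_congr rfl fun i _ => ?_
    rw [hX i, show conj (p i) * ((h i : ℂ) * (p (i + 1) - p i)) =
      (h i : ℂ) * (conj (p i) * (p (i + 1) - p i)) by ring, im_ofReal_mul]
  have h2 : ∑ i, (conj (p (i + 1)) * (X (i + 1) - X i)).im = 0 := by
    rw [← h1]
    refine Finset.sum_congr rfl fun i _ => ?_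
    rw [hX i]
    have : conj (p (i + 1)) * ((h i : ℂ) * (p (i + 1) - p i)) =
      conj (p i) * ((h i : ℂ) * (p (i + 1) - p i)) + ((h i * normSq (p (i + 1) - p i) : ℝ) : ℂ) := by
      rw [ofReal_mul, normSq_eq_conj_mul_self, map_sub]; ring
    rw [this, add_im, ofReal_im, add_zero]
  have s1 : ∑ i, (conj (p (i + 1)) * X (i + 1)).im = ∑ i, (conj (p i) * X i).im :=
    sum_shift' (fun i => (conj (p i) * X i).im)
  have h3 : ∑ i, (conj (p i) * X (i + 1)).im = ∑ i, (conj (p i) * X i).im := by
    have := h1
    simp only [mul_sub, sub_im, Finset.sum_sub_distrib] at this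
    linarith
  have h4 : ∑ i, (conj (p (i + 1)) * X i).im = ∑ i, (conj (p i) * X i).im := by
    have := h2
    simp only [mul_sub, sub_im, Finset.sum_sub_distrib] at this
    linarith
  have hw : ∀ Y : Fin (n + 3) → ℂ, ∑ i, (conj w * (Y (i + 1) - Y i)).im = 0 := by
    intro Y
    have : ∑ i, (conj w * (Y (i + 1) - Y i)).im = (conj w * ∑ i, (Y (i + 1) - Y i)).im := by
      rw [Finset.mul_sum, im_sum]
    rw [this, sum_cyc]
    simp
  unfold ar
  have hexp : ∀ i, (conj (X i + β * p i + w) * (X (i + 1) + β * p (i + 1) + w)).im =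
      (conj (X i) * X (i + 1)).im + β ^ 2 * (conj (p i) * p (i + 1)).im +
      β * ((conj (p i) * X (i + 1)).im - (conj (p (i + 1)) * X i).im) +
      (conj w * (X (i + 1) - X i)).im + β * (conj w * (p (i + 1) - p i)).im := by
    intro i
    simp only [mul_im, map_add, map_mul, conj_ofReal, add_re, add_im, mul_re, conj_re, conj_im,
      ofReal_re, ofReal_im, sub_re, sub_im]
    ring
  simp only [hexp, Finset.sum_add_distrib, ← Finset.mul_sum, Finset.sum_sub_distrib]
  rw [hw X, hw p, h3, h4]
  ring

theorem ar_pos {p : Fin (n + 3) → ℂ} (hp : IsConvexPolygon p) : 0 < ar p := by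
  have h1 : ar p = ∑ i, lft (p i) (p (i + 1)) (p 0) := by
    unfold ar
    have h2 : ∀ i, lft (p i) (p (i + 1)) (p 0) = (conj (p i) * p (i + 1)).im -
        (conj (p 0) * (p (i + 1) - p i)).im := by
      intro i
      unfold lft
      simp only [mul_im, conj_re, conj_im, sub_re, sub_im]
      ring
    simp only [h2, Finset.sum_sub_distrib]
    have : ∑ i, (conj (p 0) * (p (i + 1) - p i)).im = (conj (p 0) * ∑ i, (p (i + 1) - p i)).im := by
      rw [Finset.mul_sum, im_sum]
    rw [this, sum_cyc]
    simp
  rw [h1]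
  have h0 : ∀ i, 0 ≤ lft (p i) (p (i + 1)) (p 0) := by
    intro i
    by_cases h2 : (0 : Fin (n + 3)) = i
    · rw [← h2]; unfold lft; simp
    by_cases h3 : (0 : Fin (n + 3)) = i + 1
    · rw [← h3]; unfold lft
      rw [← normSq_eq_conj_mul_self, ofReal_im]
    exact (hp.pos i 0 h2 h3).le
  refine Finset.sum_pos' (fun i _ => h0 i) ⟨1, Finset.mem_univ _, ?_⟩
  refine hp.pos 1 0 ?_ ?_
  · exact Pool.Agent.W174.PG.one_ne.symm
  · exact Pool.Agent.W174.PG.two_ne.symm

/-- Minkowski's inequality -/
theorem minkowski {p : Fin (n + 3) → ℂ} (hp : IsConvexPolygon p) {h : Fin (n + 3) → ℝ}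
    {X : Fin (n + 3) → ℂ} (hX : ∀ i, X (i + 1) - X i = h i * (p (i + 1) - p i))
    (hV : ∑ i, h i * (conj (p i) * (p (i + 1) - p i)).im = 0) : ar X ≤ 0 := by
  obtain ⟨j, hj1, hj2, hs, hs1, hs2⟩ := unimodal hp
  set v0 : ℂ := p (idx n 1) - p (idx n 0) with hv0
  set e : ℝ := (conj v0 * (p (idx n 1) - p (idx n (j + 1)))).im with he
  have he0 : e < 0 := by
    have e01 : idx n 1 = idx n 0 + 1 := idx_succ n 0
    have h := hp.pos (idx n 0) (idx n (j + 1)) (idx_ne hj2 (by omega) (by omega))
      (by rw [← e01]; exact idx_ne hj2 (by omega) (by omega))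
    rw [← e01] at h
    unfold lft at h
    have h1 : conj v0 * (p (idx n 1) - p (idx n (j + 1))) =
      - (conj v0 * (p (idx n (j + 1)) - p (idx n 0))) + (normSq v0 : ℂ) := by
      rw [normSq_eq_conj_mul_self]; rw [hv0]; ring
    rw [he, h1, add_im, neg_im, ofReal_im]
    linarith
  set d : ℝ := (conj v0 * (X (idx n 1) - X (idx n (j + 1)))).im with hd
  set β : ℝ := - d / e with hβ
  set w : ℂ := - (X (idx n (j + 1)) + β * p (idx n (j + 1))) with hw
  have hY := lor_zero hp j hj1 hj2 hs hs1 hs2 (fun i => h i + β) (fun i => X i + β * p i + w)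
    (fun i => by
      have := hX i
      push_cast
      linear_combination this) (by simp only [hw]; ring) (by
      rw [← hv0]
      have h1 : conj v0 * (X (idx n 1) + β * p (idx n 1) + w) =
        conj v0 * (X (idx n 1) - X (idx n (j + 1))) +
          (β : ℂ) * (conj v0 * (p (idx n 1) - p (idx n (j + 1)))) := by
        rw [hw]; ring
      rw [h1, add_im, im_ofReal_mul, ← he, ← hd, hβ]
      have he1 : e ≠ 0 := he0.ne
      rw [div_mul_cancel₀ _ he1]
      ring)
  have h2 : ar (fun i => X i + β * p i + w) ≤ 0 := hY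
  rw [ar_add hX β w hV] at h2
  have h3 := ar_pos hp
  have h4 : 0 ≤ β ^ 2 * ar p := by positivity
  linarith

end Pool.Agent.L5helper84.BL
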