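import Pool.Agent.L5helper84.BL.Rev

/-!
Time reversal for sets.
-/

set_option autoImplicit false

namespace Pool.Agent.L5helper84.BL

open Complex Set MeasureTheory Filter Topology Pool.Agent.W780.PG Pool.Agent.W780.BB
  Pool.Agent.TH103.BL Pool.Agent.N440.LB

open scoped Real ComplexConjugate

variable {n : ℕ}

theorem inv_indicator {p : Fin (n + 3) → ℂ} {A : Set (ℂ × ℝ)} (hI : IsInvariant p A) :
    IsInvariantFun p (A.indicator fun _ => (1 : ℝ)) := by
  have hiff : ∀ x y : ℂ × ℝ, (x ∈ A ↔ y ∈ A) →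
      A.indicator (fun _ => (1 : ℝ)) x = A.indicator (fun _ => (1 : ℝ)) y := by
    intro x y h
    by_cases hx : x ∈ A
    · simp [hx, h.1 hx]
    · rw [indicator_of_notMem hx, indicator_of_notMem (fun hy => hx (h.2 hy))]
  exact
    { periodic := fun z θ => hiff _ _ (hI.periodic z θ)
      free := fun z θ s h1 h2 => hiff _ _ (hI.free z θ s h1 h2)
      reflect := fun i y hy θ s r hs hr h1 h2 => hiff _ _ (hI.reflect i y hy θ s r hs hr h1 h2) }

theorem reversal_set {p : Fin (n + 3) → ℂ} (hp : IsConvexPolygon p) (i₀ : Fin (n + 3))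
    (hpar : ∀ i j, i ≠ i₀ → j ≠ i₀ → (conj (p (i + 1) - p i) * (p (j + 1) - p j)).re = 0 ∨
      (conj (p (i + 1) - p i) * (p (j + 1) - p j)).im = 0)
    {A : Set (ℂ × ℝ)} (hA : MeasurableSet A) (hI : IsInvariant p A) :
    ∀ᵐ x : ℂ × ℝ, x.1 ∈ region p → ((x.1, x.2 + π) ∈ A ↔ x ∈ A) := by
  have h := reversal hp i₀ hpar (measurable_const.indicator hA : Measurable
    (A.indicator fun _ => (1 : ℝ))) (inv_indicator hI)
  filter_upwards [h] with x hx hxr
  have h1 := hx hxr
  by_cases h2 : x ∈ A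
  · rw [indicator_of_mem h2] at h1
    refine ⟨fun _ => h2, fun _ => ?_⟩
    by_contra h3
    rw [indicator_of_notMem h3] at h1
    norm_num at h1
  · rw [indicator_of_notMem h2] at h1
    refine ⟨fun h3 => ?_, fun h3 => absurd h3 h2⟩
    rw [indicator_of_mem h3] at h1
    norm_num at h1

end Pool.Agent.L5helper84.BL
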