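import Pool.Agent.L5helper84.BL.Tri

/-!
Right triangles: the sign of the area.
-/

set_option autoImplicit false

namespace Pool.Agent.L5helper84.BL

open Complex Set MeasureTheory Filter Topology Pool.Agent.W780.PG Pool.Agent.W780.BB
  Pool.Agent.TH103.BL Pool.Agent.N440.LB Pool.Agent.N370.LB

open scoped Real ComplexConjugate

theorem ang_sum {p : Fin (0 + 3) → ℂ} (hp : IsConvexPolygon p) : ang p 0 + ang p 1 + ang p 2 = π := by
  have h0 : ang p 0 = EuclideanGeometry.angle (p 2) (p 0) (p 1) := rfl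
  have h1 : ang p 1 = EuclideanGeometry.angle (p 0) (p 1) (p 2) := rfl
  have h2 : ang p 2 = EuclideanGeometry.angle (p 1) (p 2) (p 0) := rfl
  rw [h0, h1, h2]
  have hne : p 1 ≠ p 0 := (vert_ne parts.basic hp 0).symm
  have := EuclideanGeometry.angle_add_angle_add_angle_eq_pi (p₁ := p 0) (p₂ := p 1) (p 2) hne
  linarith

/-- the product of the sines -/
theorem sg_prod {p : Fin (0 + 3) → ℂ} (hp : IsConvexPolygon p) (k : ℕ) (j : Fin (0 + 3)) :
    sg p k = Real.sin (k * ang p j) * Real.sin (k * ang p (j + 1)) *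
      Real.sin (k * ang p j + k * ang p (j + 1)) := by
  have hs := ang_sum hp
  have key : ∀ a b c : ℝ, a + b + c = π → (-1) ^ (k + 1) * (Real.sin (k * a) * Real.sin (k * b) *
      Real.sin (k * c)) = Real.sin (k * a) * Real.sin (k * b) * Real.sin (k * a + k * b) := by
    intro a b c h
    have e : (k : ℝ) * c = k * π - (k * a + k * b) := by rw [← h]; ring
    have h3 : ((-1 : ℝ) ^ k) * (-1) ^ k = 1 := by rw [← mul_pow]; simp
    rw [e, Real.sin_sub, Real.sin_nat_mul_pi, Real.cos_nat_mul_pi, pow_succ]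
    linear_combination (Real.sin (k * a) * Real.sin (k * b) * Real.sin (k * a + k * b)) * h3
  unfold sg
  rw [Fin.prod_univ_three]
  fin_cases j
  · exact key (ang p 0) (ang p 1) (ang p 2) hs
  · show (-1) ^ (k + 1) * (Real.sin (k * ang p 0) * Real.sin (k * ang p 1) *
      Real.sin (k * ang p 2)) = Real.sin (k * ang p 1) * Real.sin (k * ang p 2) *
      Real.sin (k * ang p 1 + k * ang p 2)
    rw [← key (ang p 1) (ang p 2) (ang p 0) (by linarith)]
    ring
  · show (-1) ^ (k + 1) * (Real.sin (k * ang p 0) * Real.sin (k * ang p 1) *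
      Real.sin (k * ang p 2)) = Real.sin (k * ang p 2) * Real.sin (k * ang p 0) *
      Real.sin (k * ang p 2 + k * ang p 0)
    rw [← key (ang p 2) (ang p 0) (ang p 1) (by linarith)]
    ring

/-- right triangles -/
theorem sg_right {p : Fin (0 + 3) → ℂ} (hp : IsConvexPolygon p) (k : ℕ) (j : Fin (0 + 3))
    (h : ang p j = π / 2) :
    sg p k = if Even k then 0 else Real.sin (2 * k * ang p (j + 1)) / 2 := by
  rw [sg_prod hp k j, h]
  split_ifs with hk
  · obtain ⟨l, rfl⟩ := hk
    have e : ((l + l : ℕ) : ℝ) * (π / 2) = l * π := by push_cast; ring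
    rw [e, Real.sin_nat_mul_pi]
    ring
  · rw [Nat.not_even_iff_odd] at hk
    obtain ⟨l, rfl⟩ := hk
    have e : ((2 * l + 1 : ℕ) : ℝ) * (π / 2) = π / 2 + l * π := by push_cast; ring
    have e2 : Real.sin (π / 2 + l * π) = (-1) ^ l := by
      rw [Real.sin_add_nat_mul_pi, Real.sin_pi_div_two, mul_one]
    have e3 : Real.cos (π / 2 + l * π) = 0 := by
      rw [Real.cos_add_nat_mul_pi, Real.cos_pi_div_two, mul_zero]
    rw [e, Real.sin_add (π / 2 + l * π), e2, e3]
    have h3 : ((-1 : ℝ) ^ l) * (-1) ^ l = 1 := by rw [← mul_pow]; simp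
    rw [show 2 * ((2 * l + 1 : ℕ) : ℝ) * ang p (j + 1) = 2 * (((2 * l + 1 : ℕ) : ℝ) * ang p (j + 1))
      by ring, Real.sin_two_mul]
    linear_combination (Real.sin (((2 * l + 1 : ℕ) : ℝ) * ang p (j + 1)) *
      Real.cos (((2 * l + 1 : ℕ) : ℝ) * ang p (j + 1))) * h3

/-- half of the odd moments determine an invariant function in a right triangle -/
theorem half_moments_right {p : Fin (0 + 3) → ℂ} (hp : IsConvexPolygon p) (j : Fin (0 + 3))
    (hj : ang p j = π / 2) {f : ℂ × ℝ → ℝ}
    (hfm : Measurable f) (hfb : ∃ C : ℝ, ∀ x, |f x| ≤ C) (hI : IsInvariantFun p f)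
    (h : ∀ k : ℕ, 3 ≤ k → Odd k → 0 < Real.sin (2 * k * ang p (j + 1)) →
      ∃ i, moment p f i k = 0) :
    ∃ c : ℝ, ∀ᵐ x : ℂ × ℝ, x.1 ∈ region p → f x = c := by
  refine half_moments hp hfm hfb hI fun k hk hs => ?_
  rw [sg_right hp k j hj] at hs
  split_ifs at hs with he
  · exact absurd hs (lt_irrefl _)
  · rw [Nat.not_even_iff_odd] at he
    refine h k ?_ he (by linarith)
    rcases Nat.lt_or_ge k 3 with h3 | h3
    · have : k = 2 := by omega
      subst this
      exact absurd he (by decide)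
    · exact h3

end Pool.Agent.L5helper84.BL
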