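import Pool.Agent.L5helper84.BL.CorrFin
import Pool.Agent.W337.BB.Tau

/-!
Triangles: the sign of the area and the moments of the side means.
-/

set_option autoImplicit false

namespace Pool.Agent.L5helper84.BL

open Complex Set MeasureTheory Filter Topology Pool.Agent.W780.PG Pool.Agent.W780.BB
  Pool.Agent.TH103.BL Pool.Agent.N440.LB Pool.Agent.N370.LB

open scoped Real ComplexConjugate

/-- the value of `f` on the chord which arrives with the direction angle `θ` at the point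
`p i + t (p (i + 1) - p i)` of the side `i` -/
noncomputable def arrive {n : ℕ} (p : Fin (n + 3) → ℂ) (f : ℂ × ℝ → ℝ) (i : Fin (n + 3))
    (θ t : ℝ) : ℝ :=
  limUnder (𝓝[>] (0 : ℝ)) fun s => f (p i + t • (p (i + 1) - p i) - s • dir θ, θ)

/-- the mean of these values over the side `i` -/
noncomputable def sideMean {n : ℕ} (p : Fin (n + 3) → ℂ) (f : ℂ × ℝ → ℝ) (i : Fin (n + 3))
    (θ : ℝ) : ℝ := ∫ t in (0 : ℝ)..1, arrive p f i θ t

/-- the moment number `k` of the side mean of the side `i` -/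
noncomputable def moment {n : ℕ} (p : Fin (n + 3) → ℂ) (f : ℂ × ℝ → ℝ) (i : Fin (n + 3))
    (k : ℕ) : ℝ :=
  ∫ φ in (-π)..0, Real.sin φ * Real.sin (k * φ) * sideMean p f i (tau p i + φ)

section gen

variable {n : ℕ}

theorem arrive_eq {p : Fin (n + 3) → ℂ} (hp : IsConvexPolygon p) {f : ℂ × ℝ → ℝ} {C : ℝ}
    {F : ℝ → ℝ → ℝ} (hF : Chord p f C F) (i : Fin (n + 3)) {t θ : ℝ} (ht : t ∈ Ioo (0 : ℝ) 1)
    (hθ : Real.sin (θ - tau p i) < 0) : arrive p f i θ t = F θ (off θ (pt p i t)) := by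
  obtain ⟨s₀, hs₀, hr⟩ := exists_back parts.basic hp i ht hθ
  have hb := parts.basic n p hp
  have hopen : IsOpen (reg p) := hb.2.1
  have hconv : Convex ℝ (reg p) := hb.2.2.1
  have hcl : closure (reg p) = creg p := hb.2.2.2.2.2.2.1
  have hside := hb.2.2.2.2.2.2.2.2.2.2.2.2.1
  have hmem : pt p i t ∈ closure (reg p) := by
    rw [hcl]; exact (hside i _ (pt_side p i ht)).1
  have hin : ∀ s : ℝ, 0 < s → s ≤ s₀ → pt p i t - s • dir θ ∈ reg p := by
    intro s h1 h2
    rcases h2.eq_or_lt with h3 | h3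
    · rw [h3]; exact hr
    · have h4 := hconv.openSegment_closure_interior_subset_interior hmem
        (by rw [hopen.interior_eq]; exact hr)
      rw [hopen.interior_eq] at h4
      refine h4 ?_
      rw [openSegment_eq_image']
      refine ⟨s / s₀, ⟨by positivity, by rw [div_lt_one hs₀]; exact h3⟩, ?_⟩
      simp only [real_smul]
      have : (s₀ : ℂ) ≠ 0 := by exact_mod_cast hs₀.ne'
      push_cast
      field_simp
      ring
  unfold arrive
  refine Tendsto.limUnder_eq ?_
  refine tendsto_const_nhds.congr' ?_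
  have h1 : ∀ᶠ s in 𝓝[>] (0 : ℝ), s ∈ Ioc (0 : ℝ) s₀ := Ioc_mem_nhdsGT hs₀
  filter_upwards [h1] with s hs
  have h2 := hin s hs.1 hs.2
  rw [show p i + t • (p (i + 1) - p i) - s • dir θ = pt p i t - s • dir θ from rfl,
    hF.val _ _ h2, off_sub_dir]

theorem sideMean_eq {p : Fin (n + 3) → ℂ} (hp : IsConvexPolygon p) {f : ℂ × ℝ → ℝ} {C : ℝ}
    {F : ℝ → ℝ → ℝ} (hF : Chord p f C F) (i : Fin (n + 3)) {θ : ℝ}
    (hθ : Real.sin (θ - tau p i) < 0) : sideMean p f i θ = Mn p F i θ := by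
  unfold sideMean Mn
  rw [intervalIntegral.integral_of_le zero_le_one, intervalIntegral.integral_of_le zero_le_one,
    integral_Ioc_eq_integral_Ioo, integral_Ioc_eq_integral_Ioo]
  exact setIntegral_congr_fun measurableSet_Ioo fun t ht => arrive_eq hp hF i ht hθ

/-- the two moments -/
theorem mom_eq {p : Fin (n + 3) → ℂ} (hp : IsConvexPolygon p) {f : ℂ × ℝ → ℝ} {C : ℝ}
    {F : ℝ → ℝ → ℝ} (hF : Chord p f C F) (k : ℕ) (i : Fin (n + 3)) :
    mom p F k i = 2 * moment p f i k := by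
  set τ := tau p i with hτ
  set h : ℝ → ℝ := fun φ => Real.sin φ * (Real.sin (k * φ) * Mn p F i (τ + φ)) with hh
  have hM := mn_meas hF.meas p i
  have hper : Function.Periodic h (2 * π) := by
    intro φ
    simp only [hh]
    rw [Real.sin_add_two_pi, ← add_assoc, mn_per hF.per]
    congr 2
    rw [show (k : ℝ) * (φ + 2 * π) = k * φ + (k : ℕ) * (2 * π) by ring, Real.sin_add_nat_mul_two_pi]
  have hm : Measurable h := by
    have q1 : Measurable fun φ : ℝ => Real.sin φ := Real.measurable_sin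
    have q2 : Measurable fun φ : ℝ => Real.sin (k * φ) :=
      Real.measurable_sin.comp (measurable_id.const_mul _)
    have q3 : Measurable fun φ : ℝ => Mn p F i (τ + φ) := hM.comp (measurable_id.const_add _)
    exact q1.mul (q2.mul q3)
  have hb : ∀ φ, ‖h φ‖ ≤ 1 * (1 * C) := by
    intro φ
    simp only [hh]
    rw [norm_mul, norm_mul, Real.norm_eq_abs, Real.norm_eq_abs, Real.norm_eq_abs]
    gcongr
    · exact Real.abs_sin_le_one _
    · exact Real.abs_sin_le_one _
    · exact mn_bdd hF.bdd p i _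
  have hint : ∀ a b, IntervalIntegrable h volume a b := fun a b => ii hm.stronglyMeasurable hb
  have h1 : mom p F k i = ∫ φ in (-π)..π, h φ := by
    unfold mom
    have e1 : ∀ θ : ℝ, Real.sin (θ - tau p i) * (Real.sin (k * (θ - tau p i)) * Mn p F i θ) =
        h (θ - τ) := by
      intro θ
      simp only [hh]
      rw [← hτ, show τ + (θ - τ) = θ by ring]
    simp only [e1]
    rw [intervalIntegral.integral_comp_sub_right]
    have e2 := hper.intervalIntegral_add_eq (0 - τ) (-π)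
    rw [show 0 - τ + 2 * π = 2 * π - τ by ring, show -π + 2 * π = π by ring] at e2
    exact e2
  have h2 : ∫ φ in (0 : ℝ)..π, h φ = ∫ φ in (-π)..0, h φ := by
    have e1 : ∫ φ in (-π)..0, h (-φ) = ∫ φ in (0 : ℝ)..π, h φ := by
      rw [intervalIntegral.integral_comp_neg]; simp
    rw [← e1]
    refine intervalIntegral.integral_congr_ae ?_
    filter_upwards [ae_sin_ne (0 : ℝ)] with φ hφ _
    rw [sub_zero] at hφ
    simp only [hh]
    have e2 : Mn p F i (τ + -φ) = Mn p F i (τ + φ) := by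
      have := mn_refl (hF.refl i) (θ := τ + φ) (by rw [← hτ, show τ + φ - τ = φ by ring]; exact hφ)
      rw [← hτ, show 2 * τ - (τ + φ) = τ + -φ by ring] at this
      exact this
    rw [e2, Real.sin_neg, show (k : ℝ) * -φ = -(k * φ) by ring, Real.sin_neg]
    ring
  have h3 : ∫ φ in (-π)..0, h φ = moment p f i k := by
    unfold moment
    rw [intervalIntegral.integral_of_le (by linarith [Real.pi_pos]),
      intervalIntegral.integral_of_le (by linarith [Real.pi_pos]),
      integral_Ioc_eq_integral_Ioo, integral_Ioc_eq_integral_Ioo]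
    refine setIntegral_congr_fun measurableSet_Ioo fun φ hφ => ?_
    simp only [hh]
    rw [sideMean_eq hp hF i, ← hτ]
    · ring
    · rw [← hτ, show τ + φ - τ = φ by ring]
      exact Real.sin_neg_of_neg_of_neg_pi_lt hφ.2 hφ.1
  rw [h1, ← intervalIntegral.integral_add_adjacent_intervals (hint (-π) 0) (hint 0 π), h2, h3]
  ring

end gen

/-- the sign factor -/
noncomputable def sg (p : Fin (0 + 3) → ℂ) (k : ℕ) : ℝ :=
  (-1) ^ (k + 1) * ∏ i, Real.sin (k * ang p i)

theorem sin_tau {n : ℕ} {p : Fin (n + 3) → ℂ} (hp : IsConvexPolygon p) (k : ℕ) (i : Fin (n + 3)) :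
    Real.sin (k * (tau p i - tau p (i - 1))) = - (-1) ^ k * Real.sin (k * ang p i) := by
  obtain ⟨m, hm⟩ := Pool.Agent.W337.BB.tau_th n p hp i
  rw [hm]
  have h1 : (k : ℝ) * (π - ang p i + 2 * m * π) =
      k * π - k * ang p i + ((k * m : ℤ) : ℝ) * (2 * π) := by push_cast; ring
  rw [h1, Real.sin_add_int_mul_two_pi, Real.sin_sub, Real.sin_nat_mul_pi, Real.cos_nat_mul_pi]
  ring

/-- the area of the image triangle -/
theorem tri_area {p : Fin (0 + 3) → ℂ} (hp : IsConvexPolygon p) {f : ℂ × ℝ → ℝ} {C : ℝ}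
    {F : ℝ → ℝ → ℝ} (hF : Chord p f C F) (k : ℕ) :
    ∃ s : Fin (0 + 3) → ℝ, (∀ i, s i = ‖p (i + 1) - p i‖ * mom p F k i) ∧
      ar (fun i => Psi F k (p i)) = s 0 * s 1 * Real.sin (k * (tau p 1 - tau p 0)) ∧
      s 0 * Real.sin (k * (tau p 0 - tau p 2)) = s 1 * Real.sin (k * (tau p 2 - tau p 1)) ∧
      s 1 * Real.sin (k * (tau p 1 - tau p 0)) = s 2 * Real.sin (k * (tau p 0 - tau p 2)) ∧
      s 2 * Real.sin (k * (tau p 2 - tau p 1)) = s 0 * Real.sin (k * (tau p 1 - tau p 0)) := by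
  set s : Fin (0 + 3) → ℝ := fun i => ‖p (i + 1) - p i‖ * mom p F k i with hs
  set x : Fin (0 + 3) → ℂ := fun i => Psi F k (p i) with hx
  have hedge : ∀ i, x (i + 1) - x i = -(s i : ℂ) * I * exp (((k * tau p i : ℝ) : ℂ) * I) := by
    intro i
    have h1 := psi_edge hF k i
    have h2 : exp (((k * tau p i : ℝ) : ℂ) * I) * exp (-((k * tau p i : ℝ) : ℂ) * I) = 1 := by
      rw [← exp_add]; simp
    have h3 : x (i + 1) - x i = exp (((k * tau p i : ℝ) : ℂ) * I) *
        (exp (-((k * tau p i : ℝ) : ℂ) * I) * (x (i + 1) - x i)) := by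
      rw [← mul_assoc, h2, one_mul]
    rw [h3]
    simp only [hx]
    rw [h1]
    ring
  have i1 : (0 : Fin (0 + 3)) + 1 = 1 := rfl
  have i2 : (1 : Fin (0 + 3)) + 1 = 2 := rfl
  have i3 : (2 : Fin (0 + 3)) + 1 = 0 := rfl
  have e0 := hedge 0
  have e1 := hedge 1
  have e2 := hedge 2
  rw [i1] at e0
  rw [i2] at e1
  rw [i3] at e2
  have hcl : (s 0 : ℂ) * exp (((k * tau p 0 : ℝ) : ℂ) * I) +
      (s 1 : ℂ) * exp (((k * tau p 1 : ℝ) : ℂ) * I) +
      (s 2 : ℂ) * exp (((k * tau p 2 : ℝ) : ℂ) * I) = 0 := by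
    have h1 : (x 1 - x 0) + (x 2 - x 1) + (x 0 - x 2) = 0 := by ring
    rw [e0, e1, e2] at h1
    have h2 : I * ((s 0 : ℂ) * exp (((k * tau p 0 : ℝ) : ℂ) * I) +
      (s 1 : ℂ) * exp (((k * tau p 1 : ℝ) : ℂ) * I) +
      (s 2 : ℂ) * exp (((k * tau p 2 : ℝ) : ℂ) * I)) = 0 := by linear_combination -h1
    exact (mul_eq_zero.1 h2).resolve_left I_ne_zero
  -- components
  have hcos : s 0 * Real.cos (k * tau p 0) + s 1 * Real.cos (k * tau p 1) +
      s 2 * Real.cos (k * tau p 2) = 0 := by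
    have := congrArg Complex.re hcl
    simp only [add_re, re_ofReal_mul, exp_ofReal_mul_I_re, zero_re] at this
    exact this
  have hsin : s 0 * Real.sin (k * tau p 0) + s 1 * Real.sin (k * tau p 1) +
      s 2 * Real.sin (k * tau p 2) = 0 := by
    have := congrArg Complex.im hcl
    simp only [add_im, im_ofReal_mul, exp_ofReal_mul_I_im, zero_im] at this
    exact this
  refine ⟨s, fun _ => rfl, ?_, ?_, ?_, ?_⟩
  · have h1 : ar x = (conj (x 1 - x 0) * (x 2 - x 1)).im := by
      unfold ar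
      rw [Fin.sum_univ_three, i1, i2, i3]
      simp only [mul_im, conj_re, conj_im, sub_re, sub_im]
      ring
    rw [h1, e0, e1]
    have h2 : ∀ a : ℝ, conj (exp ((a : ℂ) * I)) = exp (-(a : ℂ) * I) := by
      intro a
      rw [← exp_conj, map_mul, conj_ofReal, conj_I]; congr 1; ring
    rw [map_mul, map_mul, map_neg, conj_ofReal, conj_I, h2]
    have h3 : -(s 0 : ℂ) * -I * exp (-((k * tau p 0 : ℝ) : ℂ) * I) *
        (-(s 1 : ℂ) * I * exp (((k * tau p 1 : ℝ) : ℂ) * I)) =
        ((s 0 * s 1 : ℝ) : ℂ) * exp (((k * (tau p 1 - tau p 0) : ℝ) : ℂ) * I) := by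
      rw [show -(s 0 : ℂ) * -I * exp (-((k * tau p 0 : ℝ) : ℂ) * I) *
        (-(s 1 : ℂ) * I * exp (((k * tau p 1 : ℝ) : ℂ) * I)) =
        -(I * I) * ((s 0 * s 1 : ℝ) : ℂ) * (exp (-((k * tau p 0 : ℝ) : ℂ) * I) *
          exp (((k * tau p 1 : ℝ) : ℂ) * I)) by push_cast; ring, I_mul_I, ← exp_add, neg_neg, one_mul]
      congr 2
      push_cast
      ring
    rw [h3, im_ofReal_mul, exp_ofReal_mul_I_im]
  · rw [mul_sub, mul_sub, Real.sin_sub, Real.sin_sub]
    linear_combination (Real.cos (k * tau p 2)) * hsin - (Real.sin (k * tau p 2)) * hcos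
  · rw [mul_sub, mul_sub, Real.sin_sub, Real.sin_sub]
    linear_combination (Real.cos (k * tau p 0)) * hsin - (Real.sin (k * tau p 0)) * hcos
  · rw [mul_sub, mul_sub, Real.sin_sub, Real.sin_sub]
    linear_combination (Real.cos (k * tau p 1)) * hsin - (Real.sin (k * tau p 1)) * hcos

theorem sg_eq {p : Fin (0 + 3) → ℂ} (hp : IsConvexPolygon p) (k : ℕ) :
    sg p k = Real.sin (k * (tau p 1 - tau p 0)) * Real.sin (k * (tau p 2 - tau p 1)) *
      Real.sin (k * (tau p 0 - tau p 2)) := by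
  have h0 := sin_tau hp k 0
  have h1 := sin_tau hp k 1
  have h2 := sin_tau hp k 2
  have e0 : (0 : Fin (0 + 3)) - 1 = 2 := rfl
  have e1 : (1 : Fin (0 + 3)) - 1 = 0 := rfl
  have e2 : (2 : Fin (0 + 3)) - 1 = 1 := rfl
  rw [e0] at h0
  rw [e1] at h1
  rw [e2] at h2
  rw [h0, h1, h2]
  unfold sg
  rw [Fin.prod_univ_three]
  have h3 : ((-1 : ℝ) ^ k) * (-1) ^ k = 1 := by rw [← mul_pow]; simp
  rw [pow_succ]
  linear_combination (-1 : ℝ) ^ k * (Real.sin (k * ang p 0) * Real.sin (k * ang p 1) *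
    Real.sin (k * ang p 2)) * h3

/-- monotonicity of the energies -/
theorem en_mono {p : Fin (0 + 3) → ℂ} (hp : IsConvexPolygon p) {f : ℂ × ℝ → ℝ}
    (hfm : Measurable f) (hfb : ∃ C : ℝ, ∀ x, |f x| ≤ C) (hI : IsInvariantFun p f) {k : ℕ}
    (hk : 1 ≤ k) :
    (sg p k ≤ 0 → En p f (k - 1) ≤ En p f (k + 1)) ∧
    (0 ≤ sg p k → En p f (k + 1) ≤ En p f (k - 1)) ∧
    ((∃ i, sg p k ≠ 0 ∧ moment p f i k = 0) → En p f (k + 1) = En p f (k - 1)) := by
  obtain ⟨C, F, hF⟩ := parts.ch parts.basic parts.hull 0 p hp f hfm hfb hI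
  have h1 := area_id hp hfm hfb hI.periodic hF hk
  have h2 : ∑ i, (conj (Psi F k (p (i + 1))) * Psi F k (p i)).im = - ar (fun i => Psi F k (p i)) := by
    unfold ar
    rw [← Finset.sum_neg_distrib]
    refine Finset.sum_congr rfl fun i _ => ?_
    simp only [mul_im, conj_re, conj_im]
    ring
  rw [h2] at h1
  obtain ⟨s, hs, ha, q1, q2, q3⟩ := tri_area hp hF k
  rw [sg_eq hp k]
  set A := Real.sin (k * (tau p 1 - tau p 0))
  set B := Real.sin (k * (tau p 2 - tau p 1))
  set D := Real.sin (k * (tau p 0 - tau p 2))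
  set a := ar (fun i => Psi F k (p i))
  -- `a * B ^ 2 = s 0 ^ 2 * (A * B * D)`
  have key : a * B ^ 2 = s 0 ^ 2 * (A * B * D) := by
    rw [ha]; linear_combination (-(s 0 * A * B)) * q1
  have keyB : B = 0 → a = 0 := by
    intro hB
    rw [hB] at q1 q3
    rw [ha]
    have h3 : s 0 * A = 0 := by linarith
    linear_combination (s 1) * h3
  refine ⟨fun h => ?_, fun h => ?_, ?_⟩
  · have : a ≤ 0 := by
      by_cases hB : B = 0
      · exact (keyB hB).le
      · have hB2 : 0 < B ^ 2 := by positivity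
        by_contra hcon
        push Not at hcon
        have h3 : 0 < a * B ^ 2 := mul_pos hcon hB2
        have h4 : s 0 ^ 2 * (A * B * D) ≤ 0 := mul_nonpos_of_nonneg_of_nonpos (sq_nonneg _) h
        linarith
    linarith
  · have : 0 ≤ a := by
      by_cases hB : B = 0
      · exact (keyB hB).ge
      · have hB2 : 0 < B ^ 2 := by positivity
        by_contra hcon
        push Not at hcon
        have h3 : a * B ^ 2 < 0 := mul_neg_of_neg_of_pos hcon hB2
        have h4 : 0 ≤ s 0 ^ 2 * (A * B * D) := mul_nonneg (sq_nonneg _) h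
        linarith
    linarith
  · rintro ⟨i, hne, hmom⟩
    have hsi : s i = 0 := by rw [hs, mom_eq hp hF, hmom]; ring
    have hA : A ≠ 0 := fun h => hne (by rw [h]; ring)
    have hB : B ≠ 0 := fun h => hne (by rw [h]; ring)
    have hD : D ≠ 0 := fun h => hne (by rw [h]; ring)
    have hs0 : s 0 = 0 := by
      fin_cases i
      · exact hsi
      · have hsi' : s 1 = 0 := hsi
        rw [hsi', zero_mul] at q1
        exact (mul_eq_zero.1 q1).resolve_right hD
      · have hsi' : s 2 = 0 := hsi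
        rw [hsi', zero_mul] at q3
        exact (mul_eq_zero.1 q3.symm).resolve_right hA
    have : a = 0 := by rw [ha, hs0]; ring
    linarith

/-- the law of sines for the energies -/
theorem en_sines {p : Fin (0 + 3) → ℂ} (hp : IsConvexPolygon p) {f : ℂ × ℝ → ℝ}
    (hfm : Measurable f) (hfb : ∃ C : ℝ, ∀ x, |f x| ≤ C) (hI : IsInvariantFun p f) {k : ℕ}
    (hk : 1 ≤ k) (i : Fin (0 + 3)) :
    (En p f (k - 1) - En p f (k + 1)) * Real.sin (k * ang p (i + 2)) ^ 2 =
      8 * (‖p (i + 1) - p i‖ * moment p f i k) ^ 2 * sg p k := by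
  obtain ⟨C, F, hF⟩ := parts.ch parts.basic parts.hull 0 p hp f hfm hfb hI
  have h1 := area_id hp hfm hfb hI.periodic hF hk
  have h2 : ∑ i, (conj (Psi F k (p (i + 1))) * Psi F k (p i)).im = - ar (fun i => Psi F k (p i)) := by
    unfold ar
    rw [← Finset.sum_neg_distrib]
    refine Finset.sum_congr rfl fun i _ => ?_
    simp only [mul_im, conj_re, conj_im]
    ring
  rw [h2] at h1
  obtain ⟨s, hs, ha, q1, q2, q3⟩ := tri_area hp hF k
  rw [sg_eq hp k]
  have t0 := sin_tau hp k 0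
  have t1 := sin_tau hp k 1
  have t2 := sin_tau hp k 2
  have e0 : (0 : Fin (0 + 3)) - 1 = 2 := rfl
  have e1 : (1 : Fin (0 + 3)) - 1 = 0 := rfl
  have e2 : (2 : Fin (0 + 3)) - 1 = 1 := rfl
  rw [e0] at t0
  rw [e1] at t1
  rw [e2] at t2
  have sq : ∀ x y : ℝ, y = - (-1) ^ k * x → x ^ 2 = y ^ 2 := by
    intro x y h
    have h3 : ((-1 : ℝ) ^ k) ^ 2 = 1 := by rw [← pow_mul, mul_comm, pow_mul]; simp
    rw [h]
    linear_combination (-x ^ 2) * h3
  have u0 := sq _ _ t0
  have u1 := sq _ _ t1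
  have u2 := sq _ _ t2
  clear sq t0 t1 t2 e0 e1 e2
  set A := Real.sin (k * (tau p 1 - tau p 0))
  set B := Real.sin (k * (tau p 2 - tau p 1))
  set D := Real.sin (k * (tau p 0 - tau p 2))
  set a := ar (fun i => Psi F k (p i))
  have hE : En p f (k - 1) - En p f (k + 1) = 2 * a := by linarith
  rw [hE]
  have hm : ‖p (i + 1) - p i‖ * moment p f i k = s i / 2 := by
    rw [hs, mom_eq hp hF]; ring
  rw [hm]
  fin_cases i
  · show 2 * a * Real.sin (k * ang p 2) ^ 2 = 8 * (s 0 / 2) ^ 2 * (A * B * D)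
    rw [u2, ha]; linear_combination (-(2 * s 0 * A * B)) * q1
  · show 2 * a * Real.sin (k * ang p 0) ^ 2 = 8 * (s 1 / 2) ^ 2 * (A * B * D)
    rw [u0, ha]; linear_combination (2 * s 1 * A * D) * q1
  · show 2 * a * Real.sin (k * ang p 1) ^ 2 = 8 * (s 2 / 2) ^ 2 * (A * B * D)
    rw [u1, ha]; linear_combination (-(2 * s 1 * A ^ 2)) * q3 + (2 * s 2 * A * B) * q2

/-- degenerate frequencies -/
theorem en_deg {p : Fin (0 + 3) → ℂ} (hp : IsConvexPolygon p) {f : ℂ × ℝ → ℝ}
    (hfm : Measurable f) (hfb : ∃ C : ℝ, ∀ x, |f x| ≤ C) (hI : IsInvariantFun p f) {k : ℕ}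
    (hk : 1 ≤ k) (h0 : sg p k = 0) : En p f (k - 1) = En p f (k + 1) := by
  obtain ⟨h1, h2, -⟩ := en_mono hp hfm hfb hI hk
  exact le_antisymm (h1 h0.le) (h2 h0.ge)

/-- the energies tend to zero -/
theorem en_tendsto {n : ℕ} {p : Fin (n + 3) → ℂ} (hp : IsConvexPolygon p) {f : ℂ × ℝ → ℝ}
    (hfm : Measurable f) (hfb : ∃ C : ℝ, ∀ x, |f x| ≤ C) :
    Tendsto (fun m : ℕ => En p f m) atTop (𝓝 0) := by
  obtain ⟨C, hC⟩ := hfb
  have hfin : volume (reg p) < ⊤ := reg_bounded parts.hull hp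
  have : IsFiniteMeasure (volume.restrict (reg p)) := ⟨by rwa [Measure.restrict_apply_univ]⟩
  have hf' : Measurable (Function.uncurry fun z θ => f (z, θ)) := hfm
  have h1 := tendsto_integral_of_dominated_convergence (μ := volume.restrict (reg p))
    (F := fun (m : ℕ) z => ‖Pool.Agent.N398.LB.FB.c (fun z θ => f (z, θ)) m z‖ ^ 2)
    (f := fun _ => (0 : ℝ)) (fun _ => (C * (2 * π)) ^ 2)
    (fun m => ((Pool.Agent.N398.LB.FB.c_meas hf' m).norm.pow 2).aestronglyMeasurable)
    (integrable_const _)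
    (fun m => ae_of_all _ fun z => by
      rw [Real.norm_of_nonneg (by positivity)]
      exact pow_le_pow_left₀ (norm_nonneg _)
        (Pool.Agent.N398.LB.FB.c_le (fun z θ => hC (z, θ)) m z) 2)
    (ae_of_all _ fun z => Pool.Agent.N398.LB.FB.c_tendsto hf' (fun z θ => hC (z, θ)) z)
  rw [integral_zero] at h1
  exact h1

theorem en_nonneg {n : ℕ} (p : Fin (n + 3) → ℂ) (f : ℂ × ℝ → ℝ) (m : ℕ) : 0 ≤ En p f m :=
  integral_nonneg fun _ => sq_nonneg _

/-- a function vanishes if the energies with equal parity are nondecreasing -/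
theorem zero_of_mono {n : ℕ} {p : Fin (n + 3) → ℂ} (hp : IsConvexPolygon p) {f : ℂ × ℝ → ℝ}
    (hfm : Measurable f) (hfb : ∃ C : ℝ, ∀ x, |f x| ≤ C)
    (hper : ∀ z θ, f (z, θ + 2 * π) = f (z, θ))
    (h : ∀ k : ℕ, 1 ≤ k → En p f (k - 1) ≤ En p f (k + 1)) :
    ∀ᵐ x : ℂ × ℝ, x.1 ∈ region p → f x = 0 := by
  have hz : ∀ m, En p f m = 0 := by
    intro m
    have h2 : ∀ j, En p f m ≤ En p f (m + 2 * j) := by
      intro j
      induction j with
      | zero => exact le_rfl
      | succ j ih => exact ih.trans (h (m + 2 * j + 1) (by omega))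
    have h3 : Tendsto (fun j : ℕ => m + 2 * j) atTop atTop :=
      tendsto_atTop_mono (fun j => show j ≤ m + 2 * j by omega) tendsto_id
    have h4 := (en_tendsto hp hfm hfb).comp h3
    exact le_antisymm (ge_of_tendsto h4 (Eventually.of_forall fun j => h2 j)) (en_nonneg p f m)
  exact zero_of_en hp hfm hfb hper fun k _ => by rw [hz, hz]

/-- the norm formula -/
theorem norm_formula {p : Fin (0 + 3) → ℂ} (hp : IsConvexPolygon p) {f : ℂ × ℝ → ℝ}
    (hfm : Measurable f) (hfb : ∃ C : ℝ, ∀ x, |f x| ≤ C) (hI : IsInvariantFun p f)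
    (i : Fin (0 + 3)) (m : ℕ) :
    Tendsto (fun J : ℕ => ∑ j ∈ Finset.range J,
      8 * sg p (m + 1 + 2 * j) * (‖p (i + 1) - p i‖ * moment p f i (m + 1 + 2 * j) /
        Real.sin (((m + 1 + 2 * j : ℕ) : ℝ) * ang p (i + 2))) ^ 2) atTop (𝓝 (En p f m)) := by
  have h1 : ∀ j : ℕ, 8 * sg p (m + 1 + 2 * j) *
      (‖p (i + 1) - p i‖ * moment p f i (m + 1 + 2 * j) /
        Real.sin (((m + 1 + 2 * j : ℕ) : ℝ) * ang p (i + 2))) ^ 2 =
      En p f (m + 2 * j) - En p f (m + 2 * (j + 1)) := by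
    intro j
    have hk : 1 ≤ m + 1 + 2 * j := by omega
    have e1 : m + 2 * j = m + 1 + 2 * j - 1 := by omega
    have e2 : m + 2 * (j + 1) = m + 1 + 2 * j + 1 := by omega
    rw [e1, e2]
    have h2 := en_sines hp hfm hfb hI hk i
    by_cases h0 : Real.sin (((m + 1 + 2 * j : ℕ) : ℝ) * ang p (i + 2)) = 0
    · have h3 : sg p (m + 1 + 2 * j) = 0 := by
        unfold sg
        rw [Finset.prod_eq_zero (Finset.mem_univ (i + 2)) h0, mul_zero]
      rw [h0, h3, en_deg hp hfm hfb hI hk h3]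
      ring
    · rw [div_pow, eq_comm]
      have h4 : Real.sin (((m + 1 + 2 * j : ℕ) : ℝ) * ang p (i + 2)) ^ 2 ≠ 0 := pow_ne_zero 2 h0
      rw [eq_comm, mul_div_assoc', div_eq_iff h4]
      linear_combination -h2
  simp only [h1]
  have h2 : ∀ J : ℕ, ∑ j ∈ Finset.range J, (En p f (m + 2 * j) - En p f (m + 2 * (j + 1))) =
      En p f m - En p f (m + 2 * J) := by
    intro J
    rw [Finset.sum_range_sub' (fun j => En p f (m + 2 * j)), mul_zero, add_zero]
  simp only [h2]
  have h3 : Tendsto (fun j : ℕ => m + 2 * j) atTop atTop :=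
    tendsto_atTop_mono (fun j => show j ≤ m + 2 * j by omega) tendsto_id
  have h4 := ((en_tendsto hp hfm hfb).comp h3).const_sub (En p f m)
  rwa [sub_zero] at h4

/-- the moments of a function minus a constant -/
theorem moment_sub {n : ℕ} {p : Fin (n + 3) → ℂ} (hp : IsConvexPolygon p) {f : ℂ × ℝ → ℝ} {C : ℝ}
    {F : ℝ → ℝ → ℝ} (hF : Chord p f C F) (c : ℝ) (i : Fin (n + 3)) (k : ℕ) :
    moment p (fun x => f x - c) i k =
      moment p f i k - c * ∫ φ in (-π)..0, Real.sin φ * Real.sin (k * φ) := by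
  have hF' : Chord p (fun x => f x - c) (C + |c|) (fun θ u => F θ u - c) := by
    refine ⟨hF.meas.sub_const c, fun θ u => ?_, fun θ u => ?_, fun θ z hz => ?_,
      fun i t ht θ hθ => ?_⟩
    · have h1 := abs_sub (F θ u) c
      have h2 := hF.bdd θ u
      linarith
    · simp only [hF.per]
    · simp only [hF.val θ z hz]
    · simp only [hF.refl i t ht θ hθ]
  have hs : ∀ φ ∈ Ioo (-π) 0, sideMean p (fun x => f x - c) i (tau p i + φ) =
      sideMean p f i (tau p i + φ) - c := by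
    intro φ hφ
    have hθ : Real.sin (tau p i + φ - tau p i) < 0 := by
      rw [show tau p i + φ - tau p i = φ by ring]
      exact Real.sin_neg_of_neg_of_neg_pi_lt hφ.2 hφ.1
    rw [sideMean_eq hp hF' i hθ, sideMean_eq hp hF i hθ]
    unfold Mn
    have hi : IntervalIntegrable (fun t => F (tau p i + φ) (off (tau p i + φ) (pt p i t)))
        volume 0 1 := by
      have hpt : Continuous (pt p i) := by unfold pt; fun_prop
      exact ii (chord_meas' hF.meas hpt.measurable measurable_const).stronglyMeasurable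
        (fun t => hF.bdd _ _)
    rw [intervalIntegral.integral_sub hi intervalIntegrable_const]
    simp
  unfold moment
  have hint1 : IntervalIntegrable (fun φ => Real.sin φ * Real.sin (k * φ) *
      sideMean p f i (tau p i + φ)) volume (-π) 0 := by
    have hM := mn_meas hF.meas p i
    have h1 : IntervalIntegrable (fun φ => Real.sin φ * Real.sin (k * φ) *
        Mn p F i (tau p i + φ)) volume (-π) 0 := by
      have q3 : Measurable fun φ : ℝ => Mn p F i (tau p i + φ) :=
        hM.comp (measurable_id.const_add _)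
      refine IntervalIntegrable.continuousOn_mul
        (ii q3.stronglyMeasurable (fun θ => mn_bdd hF.bdd p i _)) ?_
      exact (by fun_prop : Continuous fun φ : ℝ => Real.sin φ * Real.sin (k * φ)).continuousOn
    rw [intervalIntegrable_iff, uIoc_of_le (by linarith [Real.pi_pos]),
      integrableOn_Ioc_iff_integrableOn_Ioo] at h1 ⊢
    refine h1.congr_fun (fun φ hφ => ?_) measurableSet_Ioo
    simp only
    rw [sideMean_eq hp hF i]
    rw [show tau p i + φ - tau p i = φ by ring]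
    exact Real.sin_neg_of_neg_of_neg_pi_lt hφ.2 hφ.1
  have hint2 : IntervalIntegrable (fun φ => c * (Real.sin φ * Real.sin (k * φ))) volume (-π) 0 :=
    (by fun_prop : Continuous fun φ : ℝ => c * (Real.sin φ * Real.sin (k * φ))).intervalIntegrable _ _
  rw [← intervalIntegral.integral_const_mul, ← intervalIntegral.integral_sub hint1 hint2]
  rw [intervalIntegral.integral_of_le (by linarith [Real.pi_pos]),
    intervalIntegral.integral_of_le (by linarith [Real.pi_pos]),
    integral_Ioc_eq_integral_Ioo, integral_Ioc_eq_integral_Ioo]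
  refine setIntegral_congr_fun measurableSet_Ioo fun φ hφ => ?_
  rw [hs φ hφ]
  ring

theorem int_ss (k : ℕ) (hk : 2 ≤ k) : ∫ φ in (-π)..0, Real.sin φ * Real.sin (k * φ) = 0 := by
  have h : ∀ φ : ℝ, Real.sin φ * Real.sin (k * φ) =
      (Real.cos (((k - 1 : ℕ) : ℝ) * φ) - Real.cos (((k + 1 : ℕ) : ℝ) * φ)) / 2 := by
    intro φ
    have e1 : ((k - 1 : ℕ) : ℝ) * φ = k * φ - φ := by
      rw [Nat.cast_sub (by omega)]; push_cast; ring
    have e2 : ((k + 1 : ℕ) : ℝ) * φ = k * φ + φ := by push_cast; ring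
    rw [e1, e2, Real.cos_sub, Real.cos_add]
    ring
  simp only [h]
  have hc : ∀ m : ℕ, m ≠ 0 → ∫ φ in (-π)..0, Real.cos ((m : ℝ) * φ) = 0 := by
    intro m hm
    rw [intervalIntegral.integral_comp_mul_left (fun x => Real.cos x) (by exact_mod_cast hm),
      integral_cos]
    rw [mul_zero, Real.sin_zero, show (m : ℝ) * -π = -(m * π) by ring, Real.sin_neg,
      Real.sin_nat_mul_pi]
    simp
  rw [intervalIntegral.integral_div, intervalIntegral.integral_sub
    ((by fun_prop : Continuous fun φ : ℝ => Real.cos (((k - 1 : ℕ) : ℝ) * φ)).intervalIntegrable _ _)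
    ((by fun_prop : Continuous fun φ : ℝ => Real.cos (((k + 1 : ℕ) : ℝ) * φ)).intervalIntegrable _ _),
    hc _ (by omega), hc _ (by omega)]
  simp

theorem int_ss1 : ∫ φ in (-π)..0, Real.sin φ * Real.sin ((1 : ℕ) * φ) = π / 2 := by
  simp only [Nat.cast_one, one_mul, ← pow_two]
  rw [integral_sin_sq]
  simp

/-- half of the moments determine an invariant function up to a constant -/
theorem half_moments {p : Fin (0 + 3) → ℂ} (hp : IsConvexPolygon p) {f : ℂ × ℝ → ℝ}
    (hfm : Measurable f) (hfb : ∃ C : ℝ, ∀ x, |f x| ≤ C) (hI : IsInvariantFun p f)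
    (h : ∀ k : ℕ, 2 ≤ k → 0 < sg p k → ∃ i, moment p f i k = 0) :
    ∃ c : ℝ, ∀ᵐ x : ℂ × ℝ, x.1 ∈ region p → f x = c := by
  obtain ⟨C, F, hF⟩ := parts.ch parts.basic parts.hull 0 p hp f hfm hfb hI
  have hpi := Real.pi_pos
  set c : ℝ := moment p f 0 1 * (2 / π) with hc
  refine ⟨c, ?_⟩
  obtain ⟨C₀, hC₀⟩ := hfb
  have hb : ∃ C, ∀ x, |f x - c| ≤ C := ⟨C₀ + |c|, fun x => by
    have h1 := abs_sub (f x) c
    have h2 := hC₀ x
    linarith⟩
  have hI' : IsInvariantFun p (fun x => f x - c) := inv_comp hI (fun y => y - c)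
  have hz := zero_of_mono hp (f := fun x => f x - c) (hfm.sub_const _) hb hI'.periodic
    (fun k hk => by
      obtain ⟨m1, m2, m3⟩ := en_mono hp (hfm.sub_const _) hb hI' hk
      rcases le_or_gt (sg p k) 0 with hs | hs
      · exact m1 hs
      · refine (m3 ?_).ge
        rcases Nat.lt_or_ge k 2 with h2 | h2
        · have hk1 : k = 1 := by omega
          subst hk1
          refine ⟨0, hs.ne', ?_⟩
          rw [moment_sub hp hF, int_ss1, hc]
          field_simp
          ring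
        · obtain ⟨i, hi⟩ := h k h2 hs
          refine ⟨i, hs.ne', ?_⟩
          rw [moment_sub hp hF, int_ss k h2, hi]
          ring)
  filter_upwards [hz] with x hx hxr
  have := hx hxr
  linarith

end Pool.Agent.L5helper84.BL
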