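import Pool.Agent.L5helper84.BL.Lor2

/-!
The virial identity: the mean of an invariant function as a sum of pressures.
-/

set_option autoImplicit false

namespace Pool.Agent.L5helper84.BL

open Complex Set MeasureTheory Filter Topology Pool.Agent.W780.PG Pool.Agent.W780.BB
  Pool.Agent.TH103.BL Pool.Agent.N440.LB Pool.Agent.N370.LB

open scoped Real ComplexConjugate

variable {n : ℕ}

theorem re_conj_dir (τ θ : ℝ) (z : ℂ) : (conj (dir θ) * z).re =
    (conj (dir τ) * z).re * Real.cos (θ - τ) + (conj (dir τ) * z).im * Real.sin (θ - τ) := by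
  unfold dir
  have h : ∀ s : ℝ, conj (exp ((s : ℂ) * I)) = ((Real.cos s : ℝ) : ℂ) - (Real.sin s : ℝ) * I := by
    intro s
    rw [exp_mul_I, ← ofReal_cos, ← ofReal_sin, map_add, map_mul, conj_ofReal, conj_ofReal, conj_I]
    ring
  rw [h, h]
  simp only [mul_re, mul_im, sub_re, sub_im, ofReal_re, ofReal_im, I_re, I_im]
  rw [Real.cos_sub, Real.sin_sub]
  have := Real.sin_sq_add_cos_sq τ
  linear_combination (- z.re * Real.cos θ - z.im * Real.sin θ) * this

theorem edge_dir' (p : Fin (n + 3) → ℂ) (i : Fin (n + 3)) :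
    p (i + 1) - p i = ‖p (i + 1) - p i‖ * exp ((tau p i : ℂ) * I) := by
  unfold tau
  exact (norm_mul_exp_arg_mul_I _).symm

/-- the contribution of a side to the virial -/
theorem side_virial (hSY : S_SY) (p : Fin (n + 3) → ℂ) (i : Fin (n + 3))
    (F : ℝ → ℝ → ℝ) (C : ℝ) (hF : Measurable (Function.uncurry F)) (hb : ∀ θ u, |F θ u| ≤ C)
    (hper : ∀ θ u, F (θ + 2 * π) u = F θ u)
    (hrefl : ∀ t ∈ Ioo (0 : ℝ) 1, ∀ θ, Real.sin (θ - tau p i) ≠ 0 →
      F (2 * tau p i - θ) (off (2 * tau p i - θ) (pt p i t)) = F θ (off θ (pt p i t))) :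
    (∫ θ in (0 : ℝ)..(2 * π), off θ (p (i + 1) - p i) *
      ∫ t in (0 : ℝ)..1, F θ (off θ (pt p i t)) * (conj (dir θ) * pt p i t).re) =
      mom p F 1 i * (conj (p i) * (p (i + 1) - p i)).im := by
  have hC : 0 ≤ C := (abs_nonneg _).trans (hb 0 0)
  set v : ℂ := p (i + 1) - p i with hv
  set τ : ℝ := tau p i with hτ
  have hoff : ∀ θ, off θ v = ‖v‖ * Real.sin (τ - θ) := fun θ => off_eq θ
  set z : ℝ → ℂ := fun t => pt p i t with hz
  have hzc : Continuous z := by
    have : z = fun t : ℝ => p i + t • v := rfl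
    rw [this]
    fun_prop
  set a : ℝ → ℝ → ℝ := fun t θ => F θ (off θ (z t)) with ha
  have ham : Measurable (Function.uncurry a) := by
    have q1 : Measurable (fun x : ℝ × ℝ => z x.1) := hzc.measurable.comp measurable_fst
    have q2 : Measurable (fun x : ℝ × ℝ => ((x.2, z x.1) : ℝ × ℂ)) := measurable_snd.prodMk q1
    have q3 : Measurable (fun x : ℝ × ℝ => off x.2 (z x.1)) := measurable_off.comp q2
    have q4 : Measurable (fun x : ℝ × ℝ => ((x.2, off x.2 (z x.1)) : ℝ × ℝ)) :=
      measurable_snd.prodMk q3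
    exact hF.comp q4
  have hab : ∀ t θ, |a t θ| ≤ C := fun t θ => hb _ _
  have hap : ∀ t θ, a t (θ + 2 * π) = a t θ := by
    intro t θ
    simp only [ha]
    rw [hper, Pool.Agent.N440.LB.off_per]
  have has : ∀ t ∈ Ioo (0 : ℝ) 1, ∀ θ, Real.sin (θ - τ) ≠ 0 → a t (2 * τ - θ) = a t θ :=
    fun t ht θ hθ => hrefl t ht θ hθ
  set f : ℝ → ℝ → ℝ := fun s t =>
    ‖v‖ * Real.sin (τ - s) * (a t s * (conj (dir s) * z t).re) with hf
  have hJ : ∫ s in (0 : ℝ)..(2 * π), off s v *
      ∫ t in (0 : ℝ)..1, F s (off s (pt p i t)) * (conj (dir s) * pt p i t).re =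
      ∫ s in (0 : ℝ)..(2 * π), ∫ t in (0 : ℝ)..1, f s t := by
    refine intervalIntegral.integral_congr fun s _ => ?_
    simp only [hf]
    rw [← intervalIntegral.integral_const_mul]
    refine intervalIntegral.integral_congr fun t _ => ?_
    rw [hoff]
  have hfm : Measurable (Function.uncurry f) := by
    have e3 : Measurable (fun x : ℝ × ℝ => (conj (dir x.1) * z x.2).re) := by
      have : Continuous (fun x : ℝ × ℝ => (conj (dir x.1) * z x.2).re) :=
        continuous_re.comp ((continuous_conj.comp (continuous_dir.comp continuous_fst)).mul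
          (hzc.comp continuous_snd))
      exact this.measurable
    have e4 : Measurable (fun x : ℝ × ℝ => a x.2 x.1) := ham.comp measurable_swap
    have e5 : Measurable (fun x : ℝ × ℝ => Real.sin (τ - x.1)) :=
      Real.measurable_sin.comp (measurable_const.sub measurable_fst)
    exact (measurable_const.mul e5).mul (e4.mul e3)
  have hfb : ∀ s, ∀ t ∈ uIoc (0 : ℝ) 1, |f s t| ≤ ‖v‖ * 1 * (C * (‖p i‖ + ‖v‖)) := by
    intro s t ht
    rw [uIoc_of_le (by norm_num)] at ht
    simp only [hf]
    rw [abs_mul, abs_mul, abs_mul, abs_norm]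
    have h1 : ‖z t‖ ≤ ‖p i‖ + ‖v‖ := by
      calc ‖z t‖ = ‖p i + t • v‖ := rfl
        _ ≤ ‖p i‖ + ‖t • v‖ := norm_add_le _ _
        _ ≤ ‖p i‖ + ‖v‖ := by
            rw [norm_smul, Real.norm_eq_abs, abs_of_pos ht.1]
            have := mul_le_mul_of_nonneg_right ht.2 (norm_nonneg v)
            linarith
    have h2 : |(conj (dir s) * z t).re| ≤ ‖p i‖ + ‖v‖ := by
      calc |(conj (dir s) * z t).re| ≤ ‖conj (dir s) * z t‖ := abs_re_le_norm _
        _ = ‖z t‖ := by
            rw [norm_mul, RCLike.norm_conj]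
            unfold dir
            rw [norm_exp_ofReal_mul_I, one_mul]
        _ ≤ _ := h1
    gcongr
    · exact Real.abs_sin_le_one _
    · exact hab _ _
  rw [hJ, swp hfm hfb]
  set H : ℝ → ℝ := fun t => ∫ θ in (0 : ℝ)..(2 * π),
    Real.sin (θ - τ) * (Real.sin ((1 : ℕ) * (θ - τ)) * a t θ) with hH
  have him : ∀ t, (conj (dir τ) * z t).im = (conj (dir τ) * p i).im := by
    intro t
    have h1 : z t = p i + t • v := rfl
    have h2 : v = (‖v‖ : ℂ) * dir τ := by
      unfold dir
      exact edge_dir' p i
    have h3 : conj (dir τ) * dir τ = 1 := by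
      rw [← normSq_eq_conj_mul_self]
      unfold dir
      rw [normSq_eq_norm_sq, norm_exp_ofReal_mul_I]
      simp
    rw [h1, mul_add, add_im]
    have h4 : conj (dir τ) * (t • v) = ((t * ‖v‖ : ℝ) : ℂ) := by
      rw [real_smul]
      conv_lhs => rw [h2]
      rw [show conj (dir τ) * ((t : ℂ) * ((‖v‖ : ℂ) * dir τ)) =
        (t : ℂ) * (‖v‖ : ℂ) * (conj (dir τ) * dir τ) by ring, h3]
      push_cast; ring
    rw [h4, ofReal_im, add_zero]
  have hinner : ∀ t ∈ Ioo (0 : ℝ) 1, ∫ s in (0 : ℝ)..(2 * π), f s t =
      (- (‖v‖ * (conj (dir τ) * p i).im)) * H t := by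
    intro t ht
    have hsym := (hSY (a t) C τ 1 (ham.comp (measurable_const.prodMk measurable_id)) (hab t) (hap t)
      (by filter_upwards [ae_sin τ] with θ hθ using has t ht θ hθ)).1
    have hmm : Measurable (a t) := ham.comp (measurable_const.prodMk measurable_id)
    have i1 : IntervalIntegrable (fun θ => Real.cos ((1 : ℕ) * (θ - τ)) * (Real.sin (τ - θ) * a t θ))
        volume 0 (2 * π) := by
      refine ii (K := 1 * (1 * C)) ?_ ?_
      · have q1 : Measurable fun θ : ℝ => Real.cos ((1 : ℕ) * (θ - τ)) :=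
          Real.measurable_cos.comp ((measurable_id.sub_const _).const_mul _)
        have q2 : Measurable fun θ : ℝ => Real.sin (τ - θ) :=
          Real.measurable_sin.comp (measurable_const.sub measurable_id)
        exact (q1.mul (q2.mul hmm)).stronglyMeasurable
      · intro θ
        rw [norm_mul, norm_mul, Real.norm_eq_abs, Real.norm_eq_abs, Real.norm_eq_abs]
        gcongr
        · exact Real.abs_cos_le_one _
        · exact Real.abs_sin_le_one _
        · exact hab _ _
    have i2 : IntervalIntegrable (fun θ => Real.sin (θ - τ) * (Real.sin ((1 : ℕ) * (θ - τ)) * a t θ))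
        volume 0 (2 * π) := by
      refine ii (K := 1 * (1 * C)) ?_ ?_
      · have q1 : Measurable fun θ : ℝ => Real.sin ((1 : ℕ) * (θ - τ)) :=
          Real.measurable_sin.comp ((measurable_id.sub_const _).const_mul _)
        have q2 : Measurable fun θ : ℝ => Real.sin (θ - τ) :=
          Real.measurable_sin.comp (measurable_id.sub_const _)
        exact (q2.mul (q1.mul hmm)).stronglyMeasurable
      · intro θ
        rw [norm_mul, norm_mul, Real.norm_eq_abs, Real.norm_eq_abs, Real.norm_eq_abs]
        gcongr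
        · exact Real.abs_sin_le_one _
        · exact Real.abs_sin_le_one _
        · exact hab _ _
    have heq : ∀ s, f s t = (‖v‖ * (conj (dir τ) * z t).re) *
        (Real.cos ((1 : ℕ) * (s - τ)) * (Real.sin (τ - s) * a t s)) +
        (- (‖v‖ * (conj (dir τ) * p i).im)) *
          (Real.sin (s - τ) * (Real.sin ((1 : ℕ) * (s - τ)) * a t s)) := by
      intro s
      simp only [hf]
      rw [re_conj_dir τ s (z t), him t]
      have : Real.sin (τ - s) = - Real.sin (s - τ) := by
        rw [← Real.sin_neg]; congr 1; ring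
      rw [this]
      simp only [Nat.cast_one, one_mul]
      ring
    simp only [heq]
    rw [intervalIntegral.integral_add (i1.const_mul _) (i2.const_mul _),
      intervalIntegral.integral_const_mul, intervalIntegral.integral_const_mul, hsym, mul_zero,
      zero_add]
  have h3 : ∫ t in (0 : ℝ)..1, ∫ s in (0 : ℝ)..(2 * π), f s t =
      ∫ t in (0 : ℝ)..1, (- (‖v‖ * (conj (dir τ) * p i).im)) * H t := by
    refine intervalIntegral.integral_congr_ae ?_
    have h1 : ∀ᵐ t : ℝ, t ≠ 1 := by
      have : volume ({1} : Set ℝ) = 0 := measure_singleton 1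
      filter_upwards [measure_eq_zero_iff_ae_notMem.1 this] with t ht using ht
    filter_upwards [h1] with t ht1 ht
    rw [uIoc_of_le (by norm_num)] at ht
    exact hinner t ⟨ht.1, lt_of_le_of_ne ht.2 ht1⟩
  rw [h3, intervalIntegral.integral_const_mul]
  have h4 : ∫ t in (0 : ℝ)..1, H t = mom p F 1 i := by
    simp only [hH]
    have hm : Measurable (Function.uncurry (fun s t : ℝ =>
        Real.sin (s - τ) * (Real.sin ((1 : ℕ) * (s - τ)) * a t s))) := by
      have e4 : Measurable (fun x : ℝ × ℝ => a x.2 x.1) := ham.comp measurable_swap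
      have e5 : Measurable (fun x : ℝ × ℝ => Real.sin (x.1 - τ)) :=
        Real.measurable_sin.comp (measurable_fst.sub_const _)
      have e6 : Measurable (fun x : ℝ × ℝ => Real.sin ((1 : ℕ) * (x.1 - τ))) :=
        Real.measurable_sin.comp ((measurable_fst.sub_const _).const_mul _)
      exact e5.mul (e6.mul e4)
    have hbd : ∀ s, ∀ t ∈ uIoc (0 : ℝ) 1,
        |Real.sin (s - τ) * (Real.sin ((1 : ℕ) * (s - τ)) * a t s)| ≤ 1 * (1 * C) := by
      intro s t _
      rw [abs_mul, abs_mul]
      gcongr
      · exact Real.abs_sin_le_one _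
      · exact Real.abs_sin_le_one _
      · exact hab _ _
    rw [← swp hm hbd]
    unfold mom
    refine intervalIntegral.integral_congr fun s _ => ?_
    rw [intervalIntegral.integral_const_mul, intervalIntegral.integral_const_mul]
    rfl
  rw [h4]
  have h5 : ‖v‖ * (conj (dir τ) * p i).im = - (conj (p i) * v).im := by
    have h2 : v = (‖v‖ : ℂ) * dir τ := by
      unfold dir
      exact edge_dir' p i
    conv_rhs => rw [h2]
    rw [show conj (p i) * ((‖v‖ : ℂ) * dir τ) = (‖v‖ : ℂ) * (conj (p i) * dir τ) by ring,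
      im_ofReal_mul]
    simp only [mul_im, conj_re, conj_im]
    ring
  rw [h5]
  ring

/-- the virial identity -/
theorem virial {p : Fin (n + 3) → ℂ} (hp : IsConvexPolygon p) {f : ℂ × ℝ → ℝ} {C : ℝ}
    {F : ℝ → ℝ → ℝ} (hF : Chord p f C F) :
    ∫ θ in (0 : ℝ)..(2 * π), ∫ z in reg p, F θ (off θ z) =
      ∑ i, mom p F 1 i * (conj (p i) * (p (i + 1) - p i)).im := by
  have hC : 0 ≤ C := (abs_nonneg _).trans (hF.bdd 0 0)
  have h1 : ∀ θ, ∫ z in reg p, F θ (off θ z) = ∑ i, off θ (p (i + 1) - p i) *
      ∫ t in (0 : ℝ)..1, F θ (off θ (pt p i t)) * (conj (dir θ) * pt p i t).re := by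
    intro θ
    have h := parts.div n p hp θ (fun z => F θ (off θ z) * (conj (dir θ) * z).re)
      (fun z => F θ (off θ z)) ?_ (chord_meas' hF.meas measurable_id measurable_const) ?_ ?_
    · exact h
    · refine (chord_meas' hF.meas measurable_id measurable_const).mul ?_
      have : Continuous (fun z : ℂ => (conj (dir θ) * z).re) := by fun_prop
      exact this.measurable
    · intro R
      refine ⟨C * |R| + C, fun z hz => ⟨?_, ?_⟩⟩
      · rw [abs_mul]
        have h2 : |(conj (dir θ) * z).re| ≤ |R| := by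
          calc |(conj (dir θ) * z).re| ≤ ‖conj (dir θ) * z‖ := abs_re_le_norm _
            _ = ‖z‖ := by
                rw [norm_mul, RCLike.norm_conj]
                unfold dir
                rw [norm_exp_ofReal_mul_I, one_mul]
            _ ≤ R := hz
            _ ≤ |R| := le_abs_self _
        have h3 := mul_le_mul (hF.bdd θ (off θ z)) h2 (abs_nonneg _) hC
        linarith
      · have := hF.bdd θ (off θ z)
        have h2 : 0 ≤ C * |R| := by positivity
        linarith
    · intro z s
      have e1 : conj (dir θ) * dir θ = 1 := by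
        rw [← normSq_eq_conj_mul_self]
        unfold dir
        rw [normSq_eq_norm_sq, norm_exp_ofReal_mul_I]
        simp
      have e2 : ∀ r : ℝ, conj (dir θ) * (z + r • dir θ) = conj (dir θ) * z + (r : ℂ) := by
        intro r
        rw [real_smul, mul_add, show conj (dir θ) * ((r : ℂ) * dir θ) =
          (r : ℂ) * (conj (dir θ) * dir θ) by ring, e1, mul_one]
      have e3 : ∀ r : ℝ, off θ (z + r • dir θ) = off θ z := by
        intro r
        unfold off
        rw [e2, add_im, ofReal_im, add_zero]
      simp only [e3, e2, add_re, ofReal_re, intervalIntegral.integral_const, smul_eq_mul]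
      ring
  simp only [h1]
  rw [intervalIntegral.integral_finsetSum]
  · exact Finset.sum_congr rfl fun i _ =>
      side_virial parts.sy p i F C hF.meas hF.bdd hF.per (hF.refl i)
  · intro i _
    have hpt : Continuous (pt p i) := by unfold pt; fun_prop
    have hoffc : Continuous (fun θ' : ℝ => off θ' (p (i + 1) - p i)) :=
      off_cont.comp (continuous_id.prodMk continuous_const)
    refine IntervalIntegrable.continuousOn_mul ?_ hoffc.continuousOn
    obtain ⟨R, hR⟩ := isCompact_Icc.exists_bound_of_continuousOn (s := Icc (0:ℝ) 1) (f := pt p i)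
      hpt.continuousOn
    have hR0 : 0 ≤ R := (norm_nonneg _).trans (hR 0 (by simp))
    refine ii (K := C * R) ?_ ?_
    · simp only [intervalIntegral.integral_of_le (zero_le_one : (0:ℝ) ≤ 1)]
      have hm : Measurable (fun x : ℝ × ℝ => F x.1 (off x.1 (pt p i x.2)) *
          (conj (dir x.1) * pt p i x.2).re) := by
        refine (chord_meas' hF.meas (hpt.measurable.comp measurable_snd) measurable_fst).mul ?_
        have : Continuous (fun x : ℝ × ℝ => (conj (dir x.1) * pt p i x.2).re) :=
          continuous_re.comp ((continuous_conj.comp (continuous_dir.comp continuous_fst)).mul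
            (hpt.comp continuous_snd))
        exact this.measurable
      exact hm.stronglyMeasurable.integral_prod_right (ν := volume.restrict (Ioc 0 1))
    · intro θ
      have := intervalIntegral.norm_integral_le_of_norm_le_const (a := 0) (b := 1) (C := C * R)
        (f := fun t => F θ (off θ (pt p i t)) * (conj (dir θ) * pt p i t).re) ?_
      · simpa using this
      · intro t ht
        rw [uIoc_of_le zero_le_one] at ht
        rw [Real.norm_eq_abs, abs_mul]
        refine mul_le_mul (hF.bdd _ _) ?_ (abs_nonneg _) hC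
        calc |(conj (dir θ) * pt p i t).re| ≤ ‖conj (dir θ) * pt p i t‖ := abs_re_le_norm _
          _ = ‖pt p i t‖ := by
              rw [norm_mul, RCLike.norm_conj]
              unfold dir
              rw [norm_exp_ofReal_mul_I, one_mul]
          _ ≤ R := hR t ⟨ht.1.le, ht.2⟩

end Pool.Agent.L5helper84.BL
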